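import Pool.Agent.Helper44.NE.Pri
import Pool.Agent.Helper59.TS.RowVal
import Pool.Agent.Helper62.NE.RowReal
import Pool.Agent.Helper95.TS.TallRound

/-!
# The row blocks of a mixed configuration, scale `96000`
-/

set_option autoImplicit false

namespace Pool.Agent.Helper44.NE

open Pool.Agent.Helper56.NE Pool.Agent.Helper95.TS Pool.Agent.Helper90.TS Pool.Agent.Helper62.NE
  Pool.Agent.Helper44.TS

/-- the price of a grid row -/
def TR.grid (T : TR) (a b c : ℤ) : ℝ := T.a a + T.b b + T.c c + T.ab (a + b) + T.bc (b + c) +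
  T.S (a + b + c)

/-- the grid bound of a row -/
def RowBd (T : TR) (M : ℝ) : Prop := ∀ a b c : ℤ, -20 ≤ a → a ≤ 20 → -20 ≤ b → b ≤ 20 → -20 ≤ c →
  c ≤ 20 → 10 ≤ a + b + c → a + b + c ≤ 20 → a - (b + c) ≤ 21 → b - (a + c) ≤ 22 →
  c - (a + b) ≤ 21 → Helper95.TS.Rw a b c + T.grid a b c ≤ M

/-- the grid bound of the tall row -/
def TallBd (T : TR) (M : ℝ) : Prop := ∀ a b c : ℤ, -20 ≤ c → c ≤ -13 → a ≤ 20 → b ≤ 20 →
  -4 ≤ a + b + c → a + b + c ≤ 20 → a - (b + c) ≤ 21 → b - (a + c) ≤ 22 →
  RM c a b + T.grid a b c ≤ M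

variable {c : Cu} {M : ℝ}

theorem near_up {x : ℝ} {m : ℤ} (h : Near x m) : (m : ℝ) < x + 1 :=
  lt_of_le_of_lt (by exact_mod_cast h.2) (Int.ceil_lt_add_one x)

theorem near_dn {x : ℝ} {m : ℤ} (h : Near x m) : x - 1 < (m : ℝ) := by
  have h1 := Int.lt_floor_add_one x
  have h2 : ((⌊x⌋ : ℤ) : ℝ) ≤ m := by exact_mod_cast h.1
  linarith

/-- the first or the last entry of a row -/
theorem near_end {x y : ℝ} {a s : ℤ} (h : Near x a) (k : Near y s) (hx : x - y ≤ 20) :
    a - s ≤ 21 := by
  have u := near_up h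
  have d := near_dn k
  have : ((a - s : ℤ) : ℝ) < ((22 : ℤ) : ℝ) := by
    push_cast
    linarith
  have : a - s < 22 := by exact_mod_cast this
  omega

/-- the middle entry of a row -/
theorem near_mid {x y z : ℝ} {a b d : ℤ} (h : Near y b) (k : Near (x + y + z) (a + b + d))
    (hx : y - (x + z) ≤ 20) : b - (a + d) ≤ 22 := by
  have u := near_up h
  have v := near_dn k
  push_cast at v
  have : ((b - (a + d) : ℤ) : ℝ) < ((23 : ℤ) : ℝ) := by
    push_cast
    linarith
  have : b - (a + d) < 23 := by exact_mod_cast this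
  omega

theorem mx_row (h : OkU c) {r j k l : Fin 4} (hr : r = 2 ∨ r = 3) (hn : [r, j, k, l].Nodup)
    (T : TR) (hM : RowBd T M) :
    96000 * c.VR r + T.real (c.v r j) (c.v r k) (c.v r l) ≤ M + 94 := by
  have n : j ≠ r ∧ k ≠ r ∧ l ≠ r := by
    clear * - hn; revert hn; revert r j k l; decide
  have g := Pool.Agent.Helper59.TS.val_of_cu (h.gr r j k l hr hn)
  have e0 := h.e0 r hr
  have es : c.e r ≤ 236 / 25 := by
    have := h.es
    have a2 := h.e0 2 (Or.inl rfl)
    have a3 := h.e0 3 (Or.inr rfl)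
    rcases hr with rfl | rfl <;> linarith
  have vs := h.vs r j k l hr hn
  have l1 := h.lo r j hr n.1
  have l2 := h.lo r k hr n.2.1
  have l3 := h.lo r l hr n.2.2
  have h1 := h.hi r j hr n.1
  have h2 := h.hi r k hr n.2.1
  have h3 := h.hi r l hr n.2.2
  have k := row_real (rowRd_Rw (v1 := c.v r j) (v2 := c.v r k) (v3 := c.v r l) (by linarith)
    (by linarith) (by linarith) (by linarith)) T.a T.b T.c T.ab T.bc T.S (M := M) (by
      intro a b d na nb nc nab nbc ns
      obtain ⟨x1, x2⟩ := near_box (l := -20) (h := 20) na (by push_cast; linarith) (by push_cast; linarith)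
      obtain ⟨y1, y2⟩ := near_box (l := -20) (h := 20) nb (by push_cast; linarith) (by push_cast; linarith)
      obtain ⟨z1, z2⟩ := near_box (l := -20) (h := 20) nc (by push_cast; linarith) (by push_cast; linarith)
      obtain ⟨s1, s2⟩ := near_box (l := 10) (h := 20) ns (by push_cast; linarith) (by push_cast; linarith)
      exact hM a b d x1 x2 y1 y2 z1 z2 s1 s2 (near_end na nbc (by linarith))
        (near_mid nb ns (by linarith)) (near_end nc nab (by linarith)))
  unfold TR.real
  linarith

/-- **The block of the tall main cell.** -/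
theorem mx_tall (h : OkU c) (T : TR) (hM : TallBd T M) :
    96000 * c.mf 1 + T.real (c.v 1 2) (c.v 1 3) (c.v 1 0) ≤ M + 80 := by
  have e0 := h.te
  have tu := h.tu
  have tx := h.tx
  have tw := h.tw
  have tz := h.tz
  have hF : RowRd (fun x y z => RM z x y) 80 (c.v 1 2) (c.v 1 3) (c.v 1 0) :=
    RM_round_231 (by linarith) (by linarith) (by linarith) (by linarith) (by linarith)
  have k := row_real hF T.a T.b T.c T.ab T.bc T.S (M := M) (by
      intro a b d na nb nc nab nbc ns
      obtain ⟨z1, z2⟩ := near_box (l := -20) (h := -13) nc (by push_cast; linarith) (by push_cast; linarith)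
      obtain ⟨x1, x2⟩ := near_box (l := -20) (h := 20) na (by push_cast; linarith) (by push_cast; linarith)
      obtain ⟨y1, y2⟩ := near_box (l := -20) (h := 20) nb (by push_cast; linarith) (by push_cast; linarith)
      obtain ⟨s1, s2⟩ := near_box (l := -4) (h := 20) ns (by push_cast; linarith) (by push_cast; linarith)
      exact hM a b d z1 z2 x2 y2 s1 s2 (near_end na nbc (by linarith)) (near_mid nb ns (by linarith)))
  have tm := h.tm
  unfold TR.real
  linarith

end Pool.Agent.Helper44.NE
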