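import Pool.Agent.Helper56.NE.ClassCu

/-!
# The check of a single cell

Tables as functions `ℕ → ℕ`: the value at `n = i - 20` plus `2 ^ 22`.
-/

set_option autoImplicit false

namespace Pool.Agent.Helper44.NE

open Pool.Agent.Helper56.NE Pool.Agent.Helper95.TS

/-- the price `φ` is at most the value of the table -/
def Dom (φ : ℤ → ℝ) (f : ℕ → ℕ) : Prop :=
  ∀ i : ℕ, i ≤ 60 → φ ((i : ℤ) - 20) ≤ (f i : ℝ) - 4194304

theorem Dom.le {φ : ℤ → ℝ} {f : ℕ → ℕ} (h : Dom φ f) {n : ℤ} (h0 : -20 ≤ n) (h1 : n ≤ 40) :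
    φ n ≤ (f (n + 20).toNat : ℝ) - 4194304 := by
  have := h (n + 20).toNat (by omega)
  rwa [show (((n + 20).toNat : ℕ) : ℤ) - 20 = n by omega] at this

/-- all numbers below `n` -/
def allN (n : ℕ) (f : ℕ → Bool) : Bool :=
  Nat.rec (motive := fun _ => Bool) true (fun i ih => f i && ih) n

theorem allN_ok {f : ℕ → Bool} : ∀ {n : ℕ}, allN n f = true → ∀ i, i < n → f i = true := by
  intro n
  induction n with
  | zero => exact fun _ i hi => absurd hi (Nat.not_lt_zero i)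
  | succ n ih =>
    intro h i hi
    have h' : (f n && allN n f) = true := h
    rw [Bool.and_eq_true] at h'
    rcases Nat.lt_succ_iff_lt_or_eq.1 hi with k | k
    · exact ih h'.2 i k
    · rw [k]
      exact h'.1

/-- the value of the grid cell `(w, X, Y)` without its table of `w`, plus `4 w ^ 3`, is at most `R` -/
def cellSt (fX fY fD : ℕ → ℕ) (R w X Y : ℕ) : Bool :=
  Nat.ble (Nat.add (Nat.add (Nat.mul 12 (Nat.mul w (Nat.mul X Y)))
    (Nat.mul 4 (Nat.add (Nat.pow (Nat.sub w X) 3) (Nat.pow (Nat.sub w Y) 3))))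
    (Nat.add (fX (Nat.add X 20)) (Nat.add (fY (Nat.add Y 20))
      (fD (Nat.sub (Nat.add 40 w) (Nat.add X Y)))))) R

/-- the check for the widths `a .. a + n - 1`; `b`: the price `- B w`; `M`: the bound plus `2 ^ 24` -/
def cellW (fw fX fY fD : ℕ → ℕ) (B M w : ℕ) : Bool :=
  (fun R => allN (Nat.add 21 w) fun X => allN (Nat.sub (Nat.add 21 w) X) fun Y =>
    bif Nat.ble w (Nat.add X Y) then cellSt fX fY fD R w X Y else true)
    (Nat.sub (Nat.add (Nat.add M (Nat.mul 4 (Nat.pow w 3))) (Nat.mul B w)) (fw (Nat.add w 20)))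

/-- the check of all present cells with widths in `a .. b` -/
def cellP (fw fX fY fD : ℕ → ℕ) (B M a b : ℕ) : Bool :=
  allN (Nat.sub (Nat.succ b) a) fun i => Nat.ble (fw (Nat.add (Nat.add a i) 20)) M &&
    cellW fw fX fY fD B M (Nat.add a i)

/-- the check of the absent cell -/
def cellA (fw fX fY fD : ℕ → ℕ) (M : ℕ) : Bool :=
  Nat.ble (Nat.add (Nat.add (fw 0) (fX 20)) (Nat.add (fY 20) (fD 60))) M

theorem cellP_ok {fw fX fY fD : ℕ → ℕ} {B M a b : ℕ} (h : cellP fw fX fY fD B M a b = true)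
    {T : Tab} (hw : Dom T.w fw) (hX : Dom T.X fX) (hY : Dom T.Y fY) (hD : Dom T.D fD) {g : GC}
    (w0 : (a : ℤ) ≤ g.w) (wb : g.w ≤ b) (w1 : g.w ≤ 20) (X0 : 0 ≤ g.X) (Y0 : 0 ≤ g.Y) (D0 : 0 ≤ g.D) (D1 : g.D ≤ 20)
    (hs : g.X + g.Y + g.D = 20 + g.w) :
    4 * (g.vol : ℝ) + T.grid g - (B : ℝ) * (max g.w 0 : ℤ) ≤ (M : ℝ) - 16777216 := by
  obtain ⟨w, X, Y, D⟩ := g
  simp only at w0 wb w1 X0 Y0 D0 D1 hs
  obtain ⟨w', rfl⟩ : ∃ k : ℕ, w = k := ⟨w.toNat, by omega⟩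
  obtain ⟨X', rfl⟩ : ∃ k : ℕ, X = k := ⟨X.toNat, by omega⟩
  obtain ⟨Y', rfl⟩ : ∃ k : ℕ, Y = k := ⟨Y.toNat, by omega⟩
  have k1 := allN_ok h (w' - a) (by
    show w' - a < b + 1 - a
    omega)
  rw [Bool.and_eq_true] at k1
  obtain ⟨kM, k1⟩ := k1
  have ea : Nat.add a (w' - a) = w' := by
    show a + (w' - a) = w'
    omega
  rw [ea] at k1 kM
  have kM' : fw (w' + 20) ≤ M := Nat.le_of_ble_eq_true kM
  have k2 := allN_ok k1 X' (by
    show X' < 21 + w'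
    omega)
  have k3 := allN_ok k2 Y' (by
    show Y' < 21 + w' - X'
    omega)
  have k4 : Nat.ble w' (Nat.add X' Y') = true := Nat.ble_eq_true_of_le (by
    show w' ≤ X' + Y'
    omega)
  simp only [k4, cond_true] at k3
  have k5 := Nat.le_of_ble_eq_true k3
  have k6 : 12 * (w' * (X' * Y')) + 4 * ((w' - X') ^ 3 + (w' - Y') ^ 3) +
      (fX (X' + 20) + (fY (Y' + 20) + fD (40 + w' - (X' + Y')))) ≤
      M + 4 * w' ^ 3 + B * w' - fw (w' + 20) := k5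
  have k7 : 12 * (w' * (X' * Y')) + 4 * ((w' - X') ^ 3 + (w' - Y') ^ 3) +
      (fX (X' + 20) + (fY (Y' + 20) + fD (40 + w' - (X' + Y')))) + fw (w' + 20) ≤
      M + 4 * w' ^ 3 + B * w' := by omega
  have k8 : (12 * (w' * (X' * Y')) + 4 * (((w' - X' : ℕ) : ℝ) ^ 3 + ((w' - Y' : ℕ) : ℝ) ^ 3) +
      (fX (X' + 20) + (fY (Y' + 20) + fD (40 + w' - (X' + Y')))) + fw (w' + 20) : ℝ) ≤
      M + 4 * w' ^ 3 + B * w' := by exact_mod_cast k7
  have sub : ∀ a b : ℕ, ((a - b : ℕ) : ℝ) = max ((a : ℝ) - b) 0 := by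
    intro a b
    rcases le_total a b with hab | hab
    · rw [Nat.sub_eq_zero_of_le hab]
      have : (a : ℝ) ≤ b := by exact_mod_cast hab
      rw [max_eq_right (by linarith)]
      simp
    · have : (b : ℝ) ≤ a := by exact_mod_cast hab
      rw [Nat.cast_sub hab, max_eq_left (by linarith)]
  rw [sub, sub] at k8
  have a1 := hw.le (n := (w' : ℤ)) (by omega) (by omega)
  have a2 := hX.le (n := (X' : ℤ)) (by omega) (by omega)
  have a3 := hY.le (n := (Y' : ℤ)) (by omega) (by omega)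
  have a4 := hD.le (n := D) (by omega) (by omega)
  rw [show ((w' : ℤ) + 20).toNat = w' + 20 by omega] at a1
  rw [show ((X' : ℤ) + 20).toNat = X' + 20 by omega] at a2
  rw [show ((Y' : ℤ) + 20).toNat = Y' + 20 by omega] at a3
  rw [show (D + 20).toNat = 40 + w' - (X' + Y') by omega] at a4
  have ev : ((GC.vol ⟨(w' : ℤ), X', Y', D⟩ : ℤ) : ℝ) = 3 * w' * X' * Y' - (w' : ℝ) ^ 3 +
      (max ((w' : ℝ) - X') 0) ^ 3 + (max ((w' : ℝ) - Y') 0) ^ 3 := by
    unfold GC.vol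
    rw [if_neg (by simp only; omega)]
    push_cast
    ring
  have em : ((max (w' : ℤ) 0 : ℤ) : ℝ) = w' := by
    rw [max_eq_left (by omega)]
    simp
  show 4 * ((GC.vol ⟨(w' : ℤ), X', Y', D⟩ : ℤ) : ℝ) + (T.w w' + T.X X' + T.Y Y' + T.D D) -
    B * ((max (w' : ℤ) 0 : ℤ) : ℝ) ≤ M - 16777216
  rw [ev, em]
  linarith

theorem cellA_ok {fw fX fY fD : ℕ → ℕ} {M : ℕ} (h : cellA fw fX fY fD M = true) {T : Tab}
    (hw : Dom T.w fw) (hX : Dom T.X fX) (hY : Dom T.Y fY) (hD : Dom T.D fD) {g : GC}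
    (hg : g = ⟨-20, 0, 0, 40⟩) (B : ℝ) :
    4 * (g.vol : ℝ) + T.grid g - B * (max g.w 0 : ℤ) ≤ (M : ℝ) - 16777216 := by
  have k : fw 0 + fX 20 + (fY 20 + fD 60) ≤ M := Nat.le_of_ble_eq_true h
  have k' : (fw 0 + fX 20 + (fY 20 + fD 60) : ℝ) ≤ M := by exact_mod_cast k
  have a1 := hw 0 (by norm_num)
  have a2 := hX 20 (by norm_num)
  have a3 := hY 20 (by norm_num)
  have a4 := hD 60 (by norm_num)
  norm_num at a1 a2 a3 a4
  subst hg
  have ev : ((GC.vol ⟨(-20 : ℤ), 0, 0, 40⟩ : ℤ) : ℝ) = 0 := by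
    unfold GC.vol
    rw [if_pos (by norm_num)]
    simp
  have em : ((max (-20 : ℤ) 0 : ℤ) : ℝ) = 0 := by
    rw [max_eq_right (by norm_num)]
    simp
  show 4 * ((GC.vol ⟨(-20 : ℤ), 0, 0, 40⟩ : ℤ) : ℝ) + (T.w (-20) + T.X 0 + T.Y 0 + T.D 40) -
    B * ((max (-20 : ℤ) 0 : ℤ) : ℝ) ≤ M - 16777216
  rw [ev, em]
  linarith

/-- the values of a table as a number, digits of 24 bits -/
def pkd (f : ℕ → ℕ) : ℕ :=
  Nat.rec (motive := fun _ => ℕ) 0
    (fun n ih => Nat.add (Nat.mul 16777216 ih) (f (Nat.sub 60 n))) 61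

/-- a digit -/
def dg (T i : ℕ) : ℕ := Nat.land (Nat.shiftRight T (Nat.mul 24 i)) 16777215

/-- the number is evaluated first -/
def frc (T : ℕ) (F : ℕ → Bool) : Bool :=
  Nat.rec (motive := fun _ => Bool) (F 0) (fun n _ => F (Nat.succ n)) T

theorem frc_eq (T : ℕ) (F : ℕ → Bool) : frc T F = F T := by
  cases T <;> rfl

/-- the digits dominate the values -/
def dgOK (T : ℕ) (f : ℕ → ℕ) : Bool := allN 61 fun i => Nat.ble (f i) (dg T i)

theorem Dom.dg {φ : ℤ → ℝ} {f : ℕ → ℕ} (h : Dom φ f) {T : ℕ} (k : dgOK T f = true) :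
    Dom φ (dg T) := by
  intro i hi
  have h1 := h i hi
  have h2 : f i ≤ NE.dg T i := Nat.le_of_ble_eq_true (allN_ok k i (by omega))
  have h3 : (f i : ℝ) ≤ NE.dg T i := by exact_mod_cast h2
  linarith

/-- a check with the table `f` as a number -/
def tbl (f : ℕ → ℕ) (F : (ℕ → ℕ) → Bool) : Bool := frc (pkd f) fun T => dgOK T f && F (dg T)

theorem tbl_ok {f : ℕ → ℕ} {F : (ℕ → ℕ) → Bool} (h : tbl f F = true) {φ : ℤ → ℝ} (k : Dom φ f) :
    ∃ g, Dom φ g ∧ F g = true := by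
  unfold tbl at h
  rw [frc_eq, Bool.and_eq_true] at h
  exact ⟨_, k.dg h.1, h.2⟩

end Pool.Agent.Helper44.NE
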