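import Pool.Agent.Helper56.NE.ClassCu

/-!
# Piecewise linear tables
-/

set_option autoImplicit false

namespace Pool.Agent.Helper44.NE

open Pool.Agent.Helper95.TS

theorem interp_add (φ ψ : ℤ → ℝ) (x : ℝ) :
    interp (fun n => φ n + ψ n) x = interp φ x + interp ψ x := by
  unfold interp
  ring

theorem interp_neg (φ : ℤ → ℝ) (x : ℝ) : interp (fun n => -φ n) x = -interp φ x := by
  unfold interp
  ring

theorem interp_lin (a x : ℝ) : interp (fun n : ℤ => a * n) x = a * x := by
  unfold interp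
  push_cast
  ring

theorem interp_zero (x : ℝ) : interp (fun _ => 0) x = 0 := by
  unfold interp
  ring

theorem interp_const (a x : ℝ) : interp (fun _ => a) x = a := by
  unfold interp
  ring

theorem interp_int (φ : ℤ → ℝ) (n : ℤ) : interp φ n = φ n := by
  unfold interp
  rw [Int.floor_intCast]
  ring

/-- between the two values -/
theorem interp_ge {φ : ℤ → ℝ} {x M : ℝ} (h1 : M ≤ φ ⌊x⌋) (h2 : M ≤ φ (⌊x⌋ + 1)) :
    M ≤ interp φ x := by
  have a := Int.floor_le x
  have b := Int.lt_floor_add_one x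
  unfold interp
  nlinarith [mul_nonneg (sub_nonneg.2 a) (sub_nonneg.2 h2),
    mul_nonneg (by linarith : 0 ≤ 1 - (x - ⌊x⌋)) (sub_nonneg.2 h1)]

theorem interp_le {φ : ℤ → ℝ} {x M : ℝ} (h1 : φ ⌊x⌋ ≤ M) (h2 : φ (⌊x⌋ + 1) ≤ M) :
    interp φ x ≤ M := by
  have a := Int.floor_le x
  have b := Int.lt_floor_add_one x
  unfold interp
  nlinarith [mul_nonneg (sub_nonneg.2 a) (sub_nonneg.2 h2),
    mul_nonneg (by linarith : 0 ≤ 1 - (x - ⌊x⌋)) (sub_nonneg.2 h1)]

/-- the interpolation of an increasing table is increasing -/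
theorem interp_mono {φ : ℤ → ℝ} (h : Monotone φ) : Monotone (interp φ) := by
  intro x y hxy
  have f := Int.floor_le_floor hxy
  rcases eq_or_lt_of_le f with e | e
  · have h1 := h (show ⌊x⌋ ≤ ⌊x⌋ + 1 by omega)
    unfold interp
    rw [← e]
    nlinarith [mul_le_mul_of_nonneg_right hxy (sub_nonneg.2 h1)]
  · exact (interp_le (h (by omega)) (h (show ⌊x⌋ + 1 ≤ ⌊y⌋ by omega))).trans
      (interp_ge le_rfl (h (by omega)))

end Pool.Agent.Helper44.NE
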