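import Pool.Agent.Helper44.NE.MixLeaf
import Pool.Agent.Helper62.NE.RowCheck
import Pool.Agent.Helper30.NE.TallCheck

/-!
# The checks of a leaf of `MixedII`: rows, tall class, single cells
-/

set_option autoImplicit false

namespace Pool.Agent.Helper44.NE

open Pool.Agent.Helper56.NE Pool.Agent.Helper95.TS Pool.Agent.Helper90.TS Pool.Agent.Helper62.NE
  Pool.Agent.Helper44.TS

/-- the values of a table: `2 ^ 22 + a i - b i` -/
def fv (a b : ℕ → ℕ) (i : ℕ) : ℕ := Nat.sub (Nat.add 4194304 (a i)) (b i)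

/-- the list of the values -/
def gl (f : ℕ → ℕ) : List ℕ :=
  Nat.rec (motive := fun _ => List ℕ) [] (fun n ih => f (Nat.sub 60 n) :: ih) 61

theorem nth_gl (f : ℕ → ℕ) {i : ℕ} (hi : i ≤ 60) : nth 0 (gl f) i = f i := by
  have k : ∀ N : ℕ, N ≤ 61 → ∀ i, i < N → nth 0 (Nat.rec (motive := fun _ => List ℕ) []
      (fun n ih => f (Nat.sub 60 n) :: ih) N) i = f (61 - N + i) := by
    intro N
    induction N with
    | zero => exact fun _ i hi => absurd hi (Nat.not_lt_zero i)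
    | succ N ih =>
      intro hN i hi
      rcases i with _ | i
      · show f (60 - N) = f (61 - (N + 1) + 0)
        congr 1
        omega
      · show nth 0 (Nat.rec (motive := fun _ => List ℕ) []
          (fun n ih => f (Nat.sub 60 n) :: ih) N) i = _
        rw [ih (by omega) i (by omega)]
        congr 1
        omega
  have := k 61 le_rfl i (by omega)
  rw [show 61 - 61 + i = i by omega] at this
  exact this

theorem Dom.ltab {φ : ℤ → ℝ} {f : ℕ → ℕ} (h : Dom φ f) {n : ℤ} (h0 : -20 ≤ n) (h1 : n ≤ 40) :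
    φ n ≤ ltab (gl f) n := by
  have := h.le h0 h1
  unfold Helper62.NE.ltab
  rw [nth_gl f (by omega)]
  exact this

theorem PN.fv {φ : ℤ → ℝ} {a b : ℕ → ℕ} (h : PN φ a b) : Dom φ (fv a b) := h.dom

/-! ### The tables -/

section

variable (L : LD)

def f2a : ℕ → ℕ := fv (fun i => Nat.add (va L 0 i) (ia L 4 i)) fun i => Nat.add (vb L 0 i) (ib L 4 i)
def f2b : ℕ → ℕ := fv (va L 3) (vb L 3)
def f2c : ℕ → ℕ := fv (fun i => Nat.add (Nat.add (va L 4 i) (ia L 0 i)) (ia L 3 i)) fun i =>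
  Nat.add (Nat.add (vb L 4 i) (ib L 0 i)) (ib L 3 i)
def f2d : ℕ → ℕ := fv (fun i => Nat.add (pa L 0 i) (pa L 3 i)) fun i => Nat.add (pb L 0 i) (pb L 3 i)
def f2e : ℕ → ℕ := fv (pa L 4) (pb L 4)
def fS : ℕ → ℕ := fv (fun i => Nat.mul (Nat.mul 25 L.g) i) fun _ => Nat.mul 20 (Nat.mul 25 L.g)

def f3a : ℕ → ℕ := fv (fun i => Nat.add (Nat.add (va L 5 i) (ia L 1 i)) (ia L 2 i)) fun i =>
  Nat.add (Nat.add (vb L 5 i) (ib L 1 i)) (ib L 2 i)
def f3b : ℕ → ℕ := fv (va L 2) (vb L 2)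
def f3c : ℕ → ℕ := fv (fun i => Nat.add (va L 1 i) (ia L 5 i)) fun i => Nat.add (vb L 1 i) (ib L 5 i)
def f3d : ℕ → ℕ := fv (pa L 5) (pb L 5)
def f3e : ℕ → ℕ := fv (fun i => Nat.add (pa L 1 i) (pa L 2 i)) fun i => Nat.add (pb L 1 i) (pb L 2 i)

theorem dom_lin : Dom (fun n => 25 * L.pri.g * n) (fS L) := by
  refine PN.fv ?_
  refine (PN.lin (Nat.mul 25 L.g)).congr ?_
  funext n
  show 25 * ((L.g : ℕ) : ℝ) * n = ((25 * L.g : ℕ) : ℝ) * n
  push_cast
  ring

/-- the check of the row `2`, `M` shifted by `2 ^ 22` -/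
def row2OK (M : ℕ) : Bool := rowOK M 0 40 0 40 0 40 0 60 0 60 30 40 (gl (f2a L)) (gl (f2b L))
  (gl (f2c L)) (gl (f2d L)) (gl (f2e L)) (gl (fS L))

/-- the check of the row `3` -/
def row3OK (M : ℕ) : Bool := rowOK M 0 40 0 40 0 40 0 60 0 60 30 40 (gl (f3a L)) (gl (f3b L))
  (gl (f3c L)) (gl (f3d L)) (gl (f3e L)) (gl (fS L))

variable {L}

theorem rowBd_of {T : TR} {fa fb fc fd fe fs : ℕ → ℕ} (ha : Dom T.a fa) (hb : Dom T.b fb)
    (hc : Dom T.c fc) (hd : Dom T.ab fd) (he : Dom T.bc fe) (hs : Dom T.S fs) {M : ℕ}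
    (h : rowOK M 0 40 0 40 0 40 0 60 0 60 30 40 (gl fa) (gl fb) (gl fc) (gl fd) (gl fe) (gl fs)
      = true) : RowBd T ((M : ℝ) - 4194304) := by
  intro a b c a1 a2 b1 b2 c1 c2 s1 s2 n1 n2 n3
  have k := rowOK_sound h (a := a) (b := b) (c := c) (by push_cast; omega) (by push_cast; omega)
    (by push_cast; omega) (by push_cast; omega) (by push_cast; omega) (by push_cast; omega)
    (by push_cast; omega) (by push_cast; omega) (by push_cast; omega) (by push_cast; omega)
    (by push_cast; omega) (by push_cast; omega) n1 n2 n3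
  have q1 := ha.ltab (n := a) (by omega) (by omega)
  have q2 := hb.ltab (n := b) (by omega) (by omega)
  have q3 := hc.ltab (n := c) (by omega) (by omega)
  have q4 := hd.ltab (n := a + b) (by omega) (by omega)
  have q5 := he.ltab (n := b + c) (by omega) (by omega)
  have q6 := hs.ltab (n := a + b + c) (by omega) (by omega)
  unfold TR.grid
  linarith

theorem row2_ok {M : ℕ} (h : row2OK L M = true) : RowBd L.pri.R2 ((M : ℝ) - 4194304) :=
  rowBd_of ((pn_V L 0).add (pn_I L 4)).fv (pn_V L 3).fv (((pn_V L 4).add (pn_I L 0)).add (pn_I L 3)).fv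
    ((pn_P L 0).add (pn_P L 3)).fv (pn_P L 4).fv (dom_lin L) h

theorem row3_ok {M : ℕ} (h : row3OK L M = true) : RowBd L.pri.R3 ((M : ℝ) - 4194304) :=
  rowBd_of (((pn_V L 5).add (pn_I L 1)).add (pn_I L 2)).fv (pn_V L 2).fv ((pn_V L 1).add (pn_I L 5)).fv
    (pn_P L 5).fv ((pn_P L 1).add (pn_P L 2)).fv (dom_lin L) h

end

/-! ### The tall class -/

theorem interp_dom {φ ψ : ℤ → ℝ} (h : ∀ n : ℤ, -20 ≤ n → n ≤ 40 → φ n ≤ ψ n) {x : ℝ} (h0 : -20 ≤ x)
    (h1 : x < 40) : interp φ x ≤ interp ψ x := by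
  have f0 : -20 ≤ ⌊x⌋ := Int.le_floor.2 (by push_cast; exact h0)
  have f1 : ⌊x⌋ < 40 := Int.floor_lt.2 (by push_cast; exact h1)
  have a := h ⌊x⌋ f0 (by omega)
  have b := h (⌊x⌋ + 1) (by omega) (by omega)
  have c0 := Int.floor_le x
  have c1 := Int.lt_floor_add_one x
  unfold interp
  nlinarith [mul_nonneg (sub_nonneg.2 c0) (sub_nonneg.2 b),
    mul_nonneg (by linarith : 0 ≤ 1 - (x - ⌊x⌋)) (sub_nonneg.2 a)]

section

variable (L : LD)

def z0 (_ : ℕ) : ℕ := 0

def t1a : ℕ → ℕ := fv z0 fun i => lk L.s2 i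
def t1b : ℕ → ℕ := fv z0 fun i => lk L.s3 i
def t1c : ℕ → ℕ := fv (fun i => lk L.cp (Nat.sub 40 i)) z0
def t1S (b : Bool) : ℕ → ℕ := fv (fun _ => bif b then Nat.mul 20 L.n else 0)
  fun i => bif b then Nat.mul L.n i else 0

/-- the check of the tall main cell, `M` shifted by `6 * 2 ^ 22` -/
noncomputable def tallOK (b : Bool) (M : ℕ) : Bool :=
  Helper30.NE.tallChk (gl (t1a L)) (gl (t1c L)) (gl (t1b L)) (gl (fv z0 z0)) (gl (fv z0 z0))
    (gl (t1S L b)) M 0 20 (-20) (-13) 0 20 (-20) 40 (-20) 40 (-4) 20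

variable {L}

theorem tab_gl {φ : ℤ → ℝ} {f : ℕ → ℕ} (h : Dom φ f) {n : ℤ} (h0 : -20 ≤ n) (h1 : n ≤ 40) :
    φ n ≤ (Helper30.NE.tab (gl f) n : ℝ) := by
  have k := h.le h0 h1
  unfold Helper30.NE.tab
  have e : (gl f).getD (n + 20).toNat 0 = f (n + 20).toNat := by
    have q : ∀ (l : List ℕ) (i : ℕ), l.getD i 0 = nth 0 l i := by
      intro l
      induction l with
      | nil => exact fun i => rfl
      | cons a l ih =>
        intro i
        cases i with
        | zero => rfl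
        | succ i => exact ih i
    rw [q, nth_gl f (by omega)]
  rw [e]
  push_cast
  exact k

theorem tall_ok {b : Bool} {M : ℕ} (h : tallOK L b M = true) :
    TallR (L.pri.R1 b) ((M : ℝ) - 25165824) := by
  intro c hc
  have e0 := hc.te
  have tu := hc.tu
  have tx := hc.tx
  have tw := hc.tw
  have k := Helper30.NE.tall_block_cu hc h (by push_cast; linarith) (by push_cast; linarith)
    (by push_cast; linarith) (by push_cast; linarith) (by push_cast; linarith)
    (by push_cast; linarith) (by push_cast; linarith) (by push_cast; linarith)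
    (by push_cast; linarith) (by push_cast; linarith) (by push_cast; linarith)
    (by push_cast; linarith)
  have d1 : Dom (fun n => -Pt L.s2 n) (t1a L) := (PN.neg (PN.pt L.s2)).fv
  have d2 : Dom (fun n => -Pt L.s3 n) (t1b L) := (PN.neg (PN.pt L.s3)).fv
  have d3 : Dom (fun n => Pt L.cp (-n)) (t1c L) := (PN.opp L.cp).fv
  have d0 : Dom (fun _ => 0) (fv z0 z0) := PN.zero.fv
  have d4 : Dom (fun n : ℤ => if b then -(L.n : ℝ) * n else 0) (t1S L b) := by
    refine PN.fv ?_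
    have q := PN.ite b (PN.neg (PN.lin L.n)) PN.zero
    refine q.congr ?_
    funext n
    cases b with
    | false => rfl
    | true =>
      show -(L.n : ℝ) * n = -((L.n : ℝ) * n)
      ring
  have i1 := interp_dom (fun n => tab_gl d1 (n := n)) (x := c.v 1 2) (by linarith) (by linarith)
  have i2 := interp_dom (fun n => tab_gl d2 (n := n)) (x := c.v 1 3) (by linarith) (by linarith)
  have i3 := interp_dom (fun n => tab_gl d3 (n := n)) (x := c.v 1 0) (by linarith) (by linarith)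
  have i4 := interp_dom (fun n => tab_gl d4 (n := n)) (x := c.v 1 2 + c.v 1 3 + c.v 1 0)
    (by linarith) (by linarith)
  have i5 := interp_dom (fun n => tab_gl d0 (n := n)) (x := c.v 1 2 + c.v 1 0) (by linarith)
    (by linarith)
  have i6 := interp_dom (fun n => tab_gl d0 (n := n)) (x := c.v 1 0 + c.v 1 3) (by linarith)
    (by linarith)
  rw [interp_zero] at i5 i6
  rw [show c.v 1 2 + c.v 1 0 + c.v 1 3 = c.v 1 2 + c.v 1 3 + c.v 1 0 by ring] at k
  have e : (L.pri.R1 b).real (c.v 1 2) (c.v 1 3) (c.v 1 0) =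
      interp (fun n => -Pt L.s2 n) (c.v 1 2) + interp (fun n => -Pt L.s3 n) (c.v 1 3) +
      interp (fun n => Pt L.cp (-n)) (c.v 1 0) + 0 + 0 +
      interp (fun n : ℤ => if b then -(L.n : ℝ) * n else 0) (c.v 1 2 + c.v 1 3 + c.v 1 0) := by
    have y1 := interp_zero (c.v 1 2 + c.v 1 3)
    have y2 := interp_zero (c.v 1 3 + c.v 1 0)
    show interp (fun n => -Pt L.s2 n) (c.v 1 2) + interp (fun n => -Pt L.s3 n) (c.v 1 3) +
      interp (fun n => Pt L.cp (-n)) (c.v 1 0) + interp (fun _ => 0) (c.v 1 2 + c.v 1 3) +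
      interp (fun _ => 0) (c.v 1 3 + c.v 1 0) +
      interp (fun n : ℤ => if b then -(L.n : ℝ) * n else 0) (c.v 1 2 + c.v 1 3 + c.v 1 0) = _
    rw [y1, y2]
  rw [e]
  linarith

end

end Pool.Agent.Helper44.NE
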