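import Pool.Agent.Helper44.NE.MixChk
import Pool.Agent.Helper51.NE.ClassS

/-!
# The check of a leaf of `MixedII`
-/

set_option autoImplicit false

namespace Pool.Agent.Helper44.NE

open Pool.Agent.Helper56.NE Pool.Agent.Helper95.TS Pool.Agent.Helper90.TS Pool.Agent.Helper62.NE
  Pool.Agent.Helper44.TS Pool.Agent.Helper51.NE

/-- the data of a cell -/
def cd (ab : Bool) (a b : ℕ) (fw fX fY fD : ℕ → ℕ) : CellD :=
  ⟨bif ab then some (gl fw, gl fX, gl fY, gl fD) else none,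
    [⟨a, b, 0, 40, 0, 40, 0, 20, gl fw, gl fX, gl fY, gl fD⟩]⟩

theorem Dom.vof {φ : ℤ → ℝ} {f : ℕ → ℕ} (h : Dom φ f) {n : ℤ} (h0 : -20 ≤ n) (h1 : n ≤ 40) :
    φ n ≤ (vof (gl f) n : ℝ) := by
  have k := tab_gl h h0 h1
  exact k

theorem cd_val {ab : Bool} {a b : ℕ} {T : Tab} {fw fX fY fD : ℕ → ℕ} (hw : Dom T.w fw)
    (hX : Dom T.X fX) (hY : Dom T.Y fY) (hD : Dom T.D fD) {g : GC} (h : CG ab a b g) :
    ∃ x : ℤ, (cd ab a b fw fX fY fD).Val g x ∧ 4 * (g.vol : ℝ) + T.grid g ≤ x := by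
  rcases h with ⟨hab, hg⟩ | ⟨w0, w1, w2, X0, Y0, D0, D1, hs⟩
  · subst hg
    refine ⟨_, Or.inl ⟨(gl fw, gl fX, gl fY, gl fD), ?_, rfl, rfl⟩, ?_⟩
    · unfold cd
      rw [hab]
      rfl
    · have a1 := hw.vof (n := -20) (by omega) (by omega)
      have a2 := hX.vof (n := 0) (by omega) (by omega)
      have a3 := hY.vof (n := 0) (by omega) (by omega)
      have a4 := hD.vof (n := 40) (by omega) (by omega)
      have ev : ((GC.vol ⟨(-20 : ℤ), 0, 0, 40⟩ : ℤ) : ℝ) = 0 := by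
        unfold GC.vol
        rw [if_pos (by norm_num)]
        simp
      have eg : T.grid ⟨-20, 0, 0, 40⟩ = T.w (-20) + T.X 0 + T.Y 0 + T.D 40 := rfl
      rw [ev, eg]
      push_cast
      linarith
  · refine ⟨4 * g.vol + vof (gl fw) g.w + vof (gl fX) g.X + vof (gl fY) g.Y + vof (gl fD) g.D,
      Or.inr ⟨_, List.mem_singleton_self _, ?_⟩, ?_⟩
    · exact ⟨by omega, w2, X0, Y0, D0, D1, hs, ⟨w0, w1⟩,
        ⟨by push_cast; omega, by push_cast; omega⟩, ⟨by push_cast; omega, by push_cast; omega⟩,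
        ⟨by push_cast; omega, by push_cast; omega⟩, rfl⟩
    · have a1 := hw.vof (n := g.w) (by omega) (by omega)
      have a2 := hX.vof (n := g.X) (by omega) (by omega)
      have a3 := hY.vof (n := g.Y) (by omega) (by omega)
      have a4 := hD.vof (n := g.D) (by omega) (by omega)
      unfold Tab.grid
      push_cast
      linarith

/-- a single cell -/
theorem one_ok {ab : Bool} {a b : ℕ} {T : Tab} {fw fX fY fD : ℕ → ℕ} (hw : Dom T.w fw)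
    (hX : Dom T.X fX) (hY : Dom T.Y fY) (hD : Dom T.D fD) {mo bw : ℕ}
    (h : mainOK1 geo0 mo bw (cd ab a b fw fX fY fD) = true) :
    OneBd ab a b T bw ((mo : ℝ) - 16809216) := by
  intro g hg
  obtain ⟨x, hx, hv⟩ := cd_val hw hX hY hD hg
  have k := main1_sound geo0_ok h hx
  have k' : (x : ℝ) - bw * ((max g.w 0 : ℤ) : ℝ) ≤ (mo : ℝ) - 16809216 := by exact_mod_cast k
  linarith

/-- the class block -/
theorem cls_ok {a0 a1 a2 : Bool} {T0 T1 T2 : Tab} {w0 X0 Y0 D0 w1 X1 Y1 D1 w2 X2 Y2 D2 : ℕ → ℕ}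
    (hw0 : Dom T0.w w0) (hX0 : Dom T0.X X0) (hY0 : Dom T0.Y Y0) (hD0 : Dom T0.D D0)
    (hw1 : Dom T1.w w1) (hX1 : Dom T1.X X1) (hY1 : Dom T1.Y Y1) (hD1 : Dom T1.D D1)
    (hw2 : Dom T2.w w2) (hX2 : Dom T2.X X2) (hY2 : Dom T2.Y Y2) (hD2 : Dom T2.D D2) {Mo : ℕ}
    (h : classOK Mo (cd a0 0 20 w0 X0 Y0 D0) (cd a1 0 20 w1 X1 Y1 D1) (cd a2 0 20 w2 X2 Y2 D2)
      = true) : ClsBd a0 a1 a2 T0 T1 T2 ((Mo : ℝ) - 50427648) := by
  intro o0 o1 o2 g0 g1 g2 h0 h1 h2 ht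
  obtain ⟨x0, e0, f0⟩ := cd_val hw0 hX0 hY0 hD0 (a := 0) (b := 20) (by push_cast; exact h0)
  obtain ⟨x1, e1, f1⟩ := cd_val hw1 hX1 hY1 hD1 (a := 0) (b := 20) (by push_cast; exact h1)
  obtain ⟨x2, e2, f2⟩ := cd_val hw2 hX2 hY2 hD2 (a := 0) (b := 20) (by push_cast; exact h2)
  have k := class_sound h o0 o1 o2 e0 e1 e2 ht
  have k' : (x0 : ℝ) + x1 + x2 ≤ (Mo : ℝ) - 3 * 16809216 := by exact_mod_cast k
  linarith

/-! ### The cells of a leaf -/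

section

variable (L : LD)

/-- the width of `(0; 1)` -/
def g0w (b : Bool) : ℕ → ℕ := fv (fun _ => bif b then Nat.mul 20 (Nat.mul 2 L.n) else 0)
  fun i => bif b then Nat.mul (Nat.mul 2 L.n) i else 0
def g0X : ℕ → ℕ := fv (xa L 1) (xb L 1)
def g0Y : ℕ → ℕ := fv (xa L 0) (xb L 0)
def g0D : ℕ → ℕ := fv (fun i => Nat.add (da L 0 i) (da L 1 i)) fun i => Nat.add (db L 0 i) (db L 1 i)
def gz : ℕ → ℕ := fv z0 z0
def g1X : ℕ → ℕ := fv (fun i => lk L.s2 (Nat.sub 60 i)) z0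
def g1Y : ℕ → ℕ := fv (xa L 2) (xb L 2)
def g1D : ℕ → ℕ := fv (da L 2) (db L 2)
def g2X : ℕ → ℕ := fv (xa L 3) (xb L 3)
def g2Y : ℕ → ℕ := fv (fun i => lk L.s3 (Nat.sub 60 i)) z0
def g2D : ℕ → ℕ := fv (da L 3) (db L 3)
def gFw : ℕ → ℕ := fv z0 fun i => lk L.cp i
def gFX : ℕ → ℕ := fv (xa L 4) (xb L 4)
def gFY : ℕ → ℕ := fv (xa L 5) (xb L 5)
def gFD : ℕ → ℕ := fv (fun i => Nat.add (da L 4 i) (da L 5 i)) fun i => Nat.add (db L 4 i) (db L 5 i)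

/-- the cells -/
def C0 (b ab : Bool) (u v : ℕ) : CellD :=
  cd (nb L 0 && nb L 1 && ab) u v (g0w L b) (g0X L) (g0Y L) (g0D L)
def C1 : CellD := cd (nb L 2) 0 20 gz (g1X L) (g1Y L) (g1D L)
def C2 : CellD := cd (nb L 3) 0 20 gz (g2X L) (g2Y L) (g2D L)
def CF : CellD := cd false 13 20 (gFw L) (gFX L) (gFY L) (gFD L)

variable {L}

theorem dom_0w (b : Bool) : Dom (L.pri.T1 b).w (g0w L b) := by
  refine PN.fv ?_
  have q := PN.ite b (PN.neg (PN.lin (Nat.mul 2 L.n))) PN.zero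
  refine q.congr ?_
  funext n
  unfold Pri.T1
  cases b with
  | false => rfl
  | true =>
    show -2 * ((L.n : ℕ) : ℝ) * n = -(((2 * L.n : ℕ) : ℝ) * n)
    push_cast
    ring

theorem one_F {mo : ℕ} (h : mainOK1 geo0 mo 0 (CF L) = true) :
    OneBd false 13 20 L.pri.TF 0 ((mo : ℝ) - 16809216) := by
  have k := one_ok (a := 13) (b := 20) (T := L.pri.TF) (PN.neg (PN.pt L.cp)).fv (pn_X L 4).fv
    (pn_X L 5).fv ((pn_D L 4).add (pn_D L 5)).fv h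
  push_cast at k
  exact k

theorem one_0 {ab : Bool} {u v mo bw : ℕ} (b : Bool) (h : mainOK1 geo0 mo bw (C0 L b ab u v) = true) :
    OneBd (nb L 0 && nb L 1 && ab) u v (L.pri.T1 b) bw ((mo : ℝ) - 16809216) :=
  one_ok (T := L.pri.T1 b) (dom_0w b) (pn_X L 1).fv (pn_X L 0).fv ((pn_D L 0).add (pn_D L 1)).fv h

theorem one_1 {mo bw : ℕ} (h : mainOK1 geo0 mo bw (C1 L) = true) :
    OneBd (nb L 2) 0 20 L.pri.T2 bw ((mo : ℝ) - 16809216) := by
  have k := one_ok (a := 0) (b := 20) (T := L.pri.T2) PN.zero.fv (PN.rev L.s2).fv (pn_X L 2).fv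
    (pn_D L 2).fv h
  push_cast at k
  exact k

theorem one_2 {mo bw : ℕ} (h : mainOK1 geo0 mo bw (C2 L) = true) :
    OneBd (nb L 3) 0 20 L.pri.T3 bw ((mo : ℝ) - 16809216) := by
  have k := one_ok (a := 0) (b := 20) (T := L.pri.T3) PN.zero.fv (pn_X L 3).fv (PN.rev L.s3).fv
    (pn_D L 3).fv h
  push_cast at k
  exact k

theorem cls_L {Mo : ℕ} (h : classOK Mo (C0 L false true 0 20) (C1 L) (C2 L) = true) :
    ClsBd (nb L 0 && nb L 1) (nb L 2) (nb L 3) (L.pri.T1 false) L.pri.T2 L.pri.T3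
      ((Mo : ℝ) - 50427648) := by
  unfold C0 C1 C2 at h
  rw [Bool.and_true] at h
  exact cls_ok (T0 := L.pri.T1 false) (T1 := L.pri.T2) (T2 := L.pri.T3) (dom_0w false) (pn_X L 1).fv
    (pn_X L 0).fv ((pn_D L 0).add (pn_D L 1)).fv PN.zero.fv (PN.rev L.s2).fv (pn_X L 2).fv
    (pn_D L 2).fv PN.zero.fv (pn_X L 3).fv (PN.rev L.s3).fv (pn_D L 3).fv h

end

/-! ### The leaves -/

/-- the parts common to all leaves -/
noncomputable def comOK (L : LD) (b : Bool) (moF M1 M2 M3 : ℕ) : Bool :=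
  L.ok && mainOK1 geo0 moF 0 (CF L) && tallOK L b M1 && row2OK L M2 && row3OK L M3

/-- **The check of a leaf without main cell.** -/
noncomputable def leaf0OK (L : LD) (Mo moF M1 M2 M3 : ℕ) : Bool :=
  comOK L false moF M1 M2 M3 && classOK Mo (C0 L false true 0 20) (C1 L) (C2 L) &&
    Nat.ble (Nat.add (Nat.add Mo moF) (Nat.add M1 (Nat.add M2 M3))) (Nat.add 101084916 L.cn)

theorem leaf0_sound {L : LD} {Mo moF M1 M2 M3 : ℕ} (hk : leaf0OK L Mo moF M1 M2 M3 = true) {c : Cu}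
    (h : OkU c) (h0 : c.mf 0 = 0) (m : Mt L.k c) : c.val ≤ 613 / 200 := by
  unfold leaf0OK comOK at hk
  simp only [Bool.and_eq_true] at hk
  obtain ⟨⟨⟨⟨⟨⟨k1, k2⟩, k3⟩, k4⟩, k5⟩, k6⟩, k7⟩ := hk
  refine leaf0 k1 h h0 m (cls_L k6) (one_F k2) (tall_ok k3) (row2_ok k4) (row3_ok k5) ?_
  have k : Mo + moF + (M1 + (M2 + M3)) ≤ 101084916 + L.cn := Nat.le_of_ble_eq_true k7
  have k' : (Mo : ℝ) + moF + (M1 + (M2 + M3)) ≤ 101084916 + L.cn := by exact_mod_cast k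
  rw [L.C_eq]
  simp only [Bool.false_eq_true, if_false]
  linarith

/-- the majorant of the high main cell -/
def majOK (al be : ℕ) : Bool :=
  Nat.ble (Nat.add 23040 (Nat.mul 4 be)) al &&
  (bif Nat.ble be 1344 then Nat.ble (Nat.add 6488064 (Nat.pow (Nat.add 384 be) 2)) (Nat.mul 288 al)
    else true) && Nat.ble (Nat.add 16768 (Nat.mul 12 be)) al && Nat.ble (Nat.mul 20 be) al

theorem maj_ok {al be : ℕ} (h : majOK al be = true) :
    MajPair ((al : ℝ) / 96000) ((be : ℝ) / 4800) := by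
  unfold majOK at h
  simp only [Bool.and_eq_true] at h
  obtain ⟨⟨⟨h1, h2⟩, h3⟩, h4⟩ := h
  have k1 : 23040 + 4 * be ≤ al := Nat.le_of_ble_eq_true h1
  have k3 : 16768 + 12 * be ≤ al := Nat.le_of_ble_eq_true h3
  have k4 : 20 * be ≤ al := Nat.le_of_ble_eq_true h4
  have b0 : (0 : ℝ) ≤ be := Nat.cast_nonneg _
  have k1' : (23040 : ℝ) + 4 * be ≤ al := by exact_mod_cast k1
  have k3' : (16768 : ℝ) + 12 * be ≤ al := by exact_mod_cast k3
  have k4' : (20 : ℝ) * be ≤ al := by exact_mod_cast k4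
  refine ⟨by positivity, by linarith, fun hb => ?_, by linarith, by linarith⟩
  have hb' : (be : ℝ) ≤ ((1344 : ℕ) : ℝ) := by
    push_cast
    linarith
  have hb'' : be ≤ 1344 := by exact_mod_cast hb'
  rw [Nat.ble_eq_true_of_le hb'', cond_true] at h2
  have k2 : 6488064 + (384 + be) ^ 2 ≤ 288 * al := Nat.le_of_ble_eq_true h2
  have k2' : (6488064 : ℝ) + (384 + be) ^ 2 ≤ 288 * al := by exact_mod_cast k2
  nlinarith

/-- **The check of a leaf beside a high main cell.** `u v`: the bounds of the width of `(0; 1)`, `ab`: or absent -/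
noncomputable def leaf1OK (L : LD) (ab : Bool) (u v al be m0 m1 m2 moF M1 M2 M3 : ℕ) : Bool :=
  comOK L true moF M1 M2 M3 && majOK al be && mainOK1 geo0 m0 be (C0 L true ab u v) &&
    mainOK1 geo0 m1 be (C1 L) && mainOK1 geo0 m2 be (C2 L) &&
    Nat.ble (Nat.add (Nat.add (Nat.add al (Nat.mul 34 L.n)) (Nat.add m0 (Nat.add m1 m2)))
      (Nat.add (Nat.add moF M1) (Nat.add M2 M3))) (Nat.add 101084916 L.cn)

theorem leaf1_sound {L : LD} {ab : Bool} {u v al be m0 m1 m2 moF M1 M2 M3 : ℕ}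
    (hk : leaf1OK L ab u v al be m0 m1 m2 moF M1 M2 M3 = true) {c : Cu}
    (h : OkU c) (h0 : c.mf 0 ≠ 0) (m : Mt L.k c)
    (hw : ∀ g, NearC (cuC c 0 1 3 2) g → g.Sum → CG ab u v g) : c.val ≤ 613 / 200 := by
  unfold leaf1OK comOK at hk
  simp only [Bool.and_eq_true] at hk
  obtain ⟨⟨⟨⟨⟨⟨⟨⟨⟨k1, k2⟩, k3⟩, k4⟩, k5⟩, kM⟩, k6⟩, k7⟩, k8⟩, k9⟩ := hk
  refine leaf1 k1 h h0 m (maj_ok kM) hw (one_0 true k6) (one_1 k7) (one_2 k8) (one_F k2)
    (tall_ok k3) (row2_ok k4) (row3_ok k5) ?_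
  have k : al + 34 * L.n + (m0 + (m1 + m2)) + (moF + M1 + (M2 + M3)) ≤ 101084916 + L.cn :=
    Nat.le_of_ble_eq_true k9
  have k' : (al : ℝ) + 34 * L.n + (m0 + (m1 + m2)) + (moF + M1 + (M2 + M3)) ≤ 101084916 + L.cn := by
    exact_mod_cast k
  rw [L.C_eq]
  simp only [if_true]
  linarith

end Pool.Agent.Helper44.NE
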