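import Pool.Agent.Helper44.NE.MixRow
import Pool.Agent.Helper44.NE.CellChk

/-!
# The grid cells of a mixed configuration
-/

set_option autoImplicit false

namespace Pool.Agent.Helper44.NE

open Pool.Agent.Helper56.NE Pool.Agent.Helper95.TS Pool.Agent.Helper90.TS Pool.Agent.Helper62.NE
  Pool.Agent.Helper44.TS

/-- the grid cells with a width in `a .. b`; `ab`: or absent -/
def CG (ab : Bool) (a b : ℤ) (g : GC) : Prop :=
  (ab = true ∧ g = ⟨-20, 0, 0, 40⟩) ∨ (a ≤ g.w ∧ g.w ≤ b ∧ g.w ≤ 20 ∧ 0 ≤ g.X ∧ 0 ≤ g.Y ∧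
    0 ≤ g.D ∧ g.D ≤ 20 ∧ g.X + g.Y + g.D = 20 + g.w)

variable {c : Cu}

/-- present cells -/
theorem cg_pr {i m x y : Fin 4} {a b : ℤ} (h : PrU (c.f i m) (c.w i m) (c.X i m x) (c.X i m y) (c.D i m))
    (ha : (a : ℝ) ≤ c.w i m) (hb : c.w i m ≤ b) {g : GC} (hg : NearC (cuC c i m x y) g)
    (hs : g.Sum) (ab : Bool) : CG ab a b g := by
  right
  obtain ⟨w0, w1, X0, Y0, hsum⟩ := (prC_of h).near hg hs
  have d := box_near (lo := 0) (hi := 20) hg.D (by push_cast; exact h.D0) (by push_cast; exact h.D1.le)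
  have w := box_near (lo := a) (hi := b) hg.w ha hb
  exact ⟨w.1, w.2, w1, X0, Y0, d.1, d.2, hsum⟩

/-- the cells of the class `0` -/
theorem cg_cell (h : OkU c) {m x y : Fin 4} (hn : [0, m, x, y].Nodup) {g : GC}
    (hg : NearC (cuC c 0 m x y) g) (hs : g.Sum) : CG true 0 20 g := by
  rcases h.cell m x y hn with k | k
  · exact cg_pr k (by push_cast; exact k.w0.le) (by push_cast; exact k.w1) hg hs true
  · left
    exact ⟨rfl, AbC.near (f := c.f 0 m) ⟨k.w, k.X, k.Y, k.D, k.val⟩ hg⟩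

/-- a cell of kind B is present -/
theorem cg_kb (h : OkU c) {m x y r z : Fin 4} (hn : [0, m, x, y].Nodup) (hk : c.KB 0 m r z) {g : GC}
    (hg : NearC (cuC c 0 m x y) g) (hs : g.Sum) : CG false 0 20 g := by
  rcases h.cell m x y hn with k | k
  · exact cg_pr k (by push_cast; exact k.w0.le) (by push_cast; exact k.w1) hg hs false
  · exfalso
    have := hk.pr
    rw [k.D] at this
    norm_num at this

/-- a wide cell -/
theorem cg_lo (h : OkU c) {m x y : Fin 4} (hn : [0, m, x, y].Nodup) {a : ℕ} {b : ℤ}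
    (ha : (a : ℝ) ≤ c.w 0 m) (hb : c.w 0 m ≤ b) {g : GC}
    (hg : NearC (cuC c 0 m x y) g) (hs : g.Sum) : CG false a b g := by
  rcases h.cell m x y hn with k | k
  · exact cg_pr k (by push_cast; exact ha) hb hg hs false
  · exfalso
    rw [k.w] at ha
    have : (0 : ℝ) ≤ a := Nat.cast_nonneg a
    linarith

/-- a narrow cell -/
theorem cg_hi (h : OkU c) {m x y : Fin 4} (hn : [0, m, x, y].Nodup) {b : ℤ} (hb : c.w 0 m ≤ b) {g : GC}
    (hg : NearC (cuC c 0 m x y) g) (hs : g.Sum) : CG true 0 b g := by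
  rcases h.cell m x y hn with k | k
  · exact cg_pr k (by push_cast; exact k.w0.le) hb hg hs true
  · left
    exact ⟨rfl, AbC.near (f := c.f 0 m) ⟨k.w, k.X, k.Y, k.D, k.val⟩ hg⟩

/-- the far cell of the tall class -/
theorem cg_far (h : OkU c) {g : GC} (hg : NearC (cuC c 1 0 2 3) g) (hs : g.Sum) : CG false 13 20 g :=
  cg_pr h.tf (by push_cast; exact h.tw.1.le) (by push_cast; exact h.tf.w1) hg hs false

/-- the bound of a single cell -/
def OneBd (ab : Bool) (a b : ℤ) (T : Tab) (B M : ℝ) : Prop := ∀ g, CG ab a b g →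
  4 * (g.vol : ℝ) + T.grid g - B * (max g.w 0 : ℤ) ≤ M

/-- the bound of the class block; `a k`: the cell may be absent -/
def ClsBd (a0 a1 a2 : Bool) (T0 T1 T2 : Tab) (M : ℝ) : Prop :=
  ∀ (o0 o1 o2 : Bool) (g0 g1 g2 : GC), CG a0 0 20 g0 → CG a1 0 20 g1 → CG a2 0 20 g2 →
    Tri o0 o1 o2 g0 g1 g2 → (4 * (g0.vol : ℝ) + T0.grid g0) + (4 * (g1.vol : ℝ) + T1.grid g1)
      + (4 * (g2.vol : ℝ) + T2.grid g2) ≤ M

/-- the check of a single cell, `M` shifted by `2 ^ 24` -/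
def oneOK (ab : Bool) (a b : ℕ) (fw fX fY fD : ℕ → ℕ) (B M : ℕ) : Bool :=
  (bif ab then cellA fw fX fY fD M else true) && cellP fw fX fY fD B M a b

theorem oneOK_ok {ab : Bool} {a b : ℕ} {fw fX fY fD : ℕ → ℕ} {B M : ℕ}
    (h : oneOK ab a b fw fX fY fD B M = true) {T : Tab} (hw : Dom T.w fw) (hX : Dom T.X fX)
    (hY : Dom T.Y fY) (hD : Dom T.D fD) : OneBd ab a b T B ((M : ℝ) - 16777216) := by
  unfold oneOK at h
  rw [Bool.and_eq_true] at h
  rintro g (⟨hab, hg⟩ | ⟨h1, h2, h3, h4, h5, h6, h7, h8⟩)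
  · rw [hab, cond_true] at h
    exact cellA_ok h.1 hw hX hY hD hg B
  · exact cellP_ok h.2 hw hX hY hD h1 h2 h3 h4 h5 h6 h7 h8

end Pool.Agent.Helper44.NE
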