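import Pool.Agent.Helper44.NE.Pri
import Pool.Agent.Helper44.NE.CellChk
import Pool.Agent.Helper62.NE.Price

/-!
# The tables of a leaf in natural numbers
-/

set_option autoImplicit false

namespace Pool.Agent.Helper44.NE

open Pool.Agent.Helper56.NE Pool.Agent.Helper95.TS Pool.Agent.Helper90.TS Pool.Agent.Helper62.NE

/-- `φ (i - 20) = a i - b i` -/
def PN (φ : ℤ → ℝ) (a b : ℕ → ℕ) : Prop :=
  ∀ i : ℕ, i ≤ 60 → φ ((i : ℤ) - 20) = (a i : ℝ) - b i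

theorem PN.dom {φ : ℤ → ℝ} {a b : ℕ → ℕ} (h : PN φ a b) :
    Dom φ fun i => Nat.sub (Nat.add 4194304 (a i)) (b i) := by
  intro i hi
  have k := h i hi
  have : (4194304 + a i : ℕ) ≤ (4194304 + a i - b i : ℕ) + b i := by omega
  have : ((4194304 + a i : ℕ) : ℝ) ≤ ((4194304 + a i - b i : ℕ) + b i : ℕ) := by exact_mod_cast this
  push_cast at this
  show φ ((i : ℤ) - 20) ≤ ((4194304 + a i - b i : ℕ) : ℝ) - 4194304
  rw [k]
  linarith

theorem PN.add {φ ψ : ℤ → ℝ} {a b a' b' : ℕ → ℕ} (h : PN φ a b) (k : PN ψ a' b') :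
    PN (fun n => φ n + ψ n) (fun i => Nat.add (a i) (a' i)) fun i => Nat.add (b i) (b' i) := by
  intro i hi
  have := h i hi
  have := k i hi
  show φ ((i : ℤ) - 20) + ψ ((i : ℤ) - 20) = ((a i + a' i : ℕ) : ℝ) - ((b i + b' i : ℕ) : ℝ)
  push_cast
  linarith

theorem PN.neg {φ : ℤ → ℝ} {a b : ℕ → ℕ} (h : PN φ a b) : PN (fun n => -φ n) b a := by
  intro i hi
  have := h i hi
  show -φ ((i : ℤ) - 20) = _
  linarith

theorem PN.zero : PN (fun _ => 0) (fun _ => 0) fun _ => 0 := by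
  intro i _
  simp

theorem PN.pt (p : ℕ) : PN (Pt p) (fun i => lk p i) fun _ => 0 := by
  intro i hi
  unfold Pt
  rw [show (((i : ℤ) - 20) + 20).toNat = i by omega, min_eq_right hi]
  simp

/-- the reversed table `n ↦ p (20 - n)` -/
theorem PN.rev (p : ℕ) : PN (fun n => Pt p (20 - n)) (fun i => lk p (Nat.sub 60 i)) fun _ => 0 := by
  intro i hi
  show ((lk p (min 60 ((20 - ((i : ℤ) - 20)) + 20).toNat) : ℕ) : ℝ) =
    ((lk p (60 - i) : ℕ) : ℝ) - ((0 : ℕ) : ℝ)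
  rw [show ((20 - ((i : ℤ) - 20)) + 20).toNat = 60 - i by omega, min_eq_right (by omega)]
  simp

/-- the table `n ↦ p (-n)` -/
theorem PN.opp (p : ℕ) : PN (fun n => Pt p (-n)) (fun i => lk p (Nat.sub 40 i)) fun _ => 0 := by
  intro i hi
  show ((lk p (min 60 (-((i : ℤ) - 20) + 20).toNat) : ℕ) : ℝ) =
    ((lk p (40 - i) : ℕ) : ℝ) - ((0 : ℕ) : ℝ)
  have e : (-((i : ℤ) - 20) + 20).toNat = 40 - i := by omega
  rw [e, min_eq_right (by omega)]
  simp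

/-- a linear table -/
theorem PN.lin (l : ℕ) : PN (fun n => (l : ℝ) * n) (fun i => Nat.mul l i) fun _ => Nat.mul 20 l := by
  intro i _
  show (l : ℝ) * (((i : ℤ) - 20 : ℤ) : ℝ) = ((l * i : ℕ) : ℝ) - ((20 * l : ℕ) : ℝ)
  push_cast
  ring

theorem PN.congr {φ ψ : ℤ → ℝ} {a b : ℕ → ℕ} (h : PN φ a b) (e : ψ = φ) : PN ψ a b := by
  rw [e]
  exact h

theorem PN.ite (k : Bool) {φ ψ : ℤ → ℝ} {a b a' b' : ℕ → ℕ} (h : PN φ a b) (g : PN ψ a' b') :
    PN (fun n => if k then φ n else ψ n) (fun i => bif k then a i else a' i)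
      fun i => bif k then b i else b' i := by
  cases k with
  | false => simpa using g
  | true => simpa using h

/-- the data of a leaf -/
structure LD where
  /-- the codes of the kinds, `2`: kind B -/
  k : List ℕ
  p : List ℕ
  q : List ℕ
  l : List ℕ
  s2 : ℕ
  s3 : ℕ
  cp : ℕ
  n : ℕ
  g : ℕ

/-- kind B -/
def LD.kb (L : LD) (j : ℕ) : Bool := Nat.beq (nth 0 L.k j) 2

/-- the prices of a leaf -/
noncomputable def LD.pri (L : LD) : Pri where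
  k j := L.kb j
  p j := Pt (nth 0 L.p j)
  q j := Pt (nth 0 L.q j)
  l j := (nth 0 L.l j : ℕ)
  s2 := Pt L.s2
  s3 := Pt L.s3
  cp := Pt L.cp
  n := (L.n : ℕ)
  g := (L.g : ℕ)

section

variable (L : LD) (j : Fin 6)

/-- the parts of the tables -/
def xa (j i : ℕ) : ℕ := bif L.kb j then 0 else lk (nth 0 L.p j) (Nat.sub 60 i)
def xb (j i : ℕ) : ℕ := bif L.kb j then lk (nth 0 L.q j) (Nat.sub 60 i) else 0
def da (j i : ℕ) : ℕ :=
  bif L.kb j then Nat.add (lk (nth 0 L.p j) i) (Nat.mul (Nat.mul 2 (nth 0 L.l j)) i) else 0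
def db (j : ℕ) (_ : ℕ) : ℕ := bif L.kb j then Nat.mul 20 (Nat.mul 2 (nth 0 L.l j)) else 0
def va (j i : ℕ) : ℕ := bif L.kb j then lk (nth 0 L.q j) i else 0
def vb (j i : ℕ) : ℕ := bif L.kb j then 0 else lk (nth 0 L.p j) i
def pa (j : ℕ) (_ : ℕ) : ℕ := bif L.kb j then Nat.mul 20 (nth 0 L.l j) else 0
def pb (j i : ℕ) : ℕ :=
  bif L.kb j then Nat.add (lk (nth 0 L.p j) i) (Nat.mul (nth 0 L.l j) i) else 0
def ia (j i : ℕ) : ℕ := bif L.kb j then Nat.mul (nth 0 L.l j) i else 0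
def ib (j : ℕ) (_ : ℕ) : ℕ := bif L.kb j then Nat.mul 20 (nth 0 L.l j) else 0

theorem pn_X : PN (L.pri.tX j) (xa L j) (xb L j) := by
  unfold Pri.tX
  have k := PN.ite (L.kb j) (PN.neg (PN.rev (nth 0 L.q j))) (PN.rev (nth 0 L.p j))
  exact k

theorem pn_D : PN (L.pri.tD j) (da L j) (db L j) := by
  intro i hi
  have k1 := (PN.pt (nth 0 L.p j)) i hi
  have k2 := (PN.lin (Nat.mul 2 (nth 0 L.l j))) i hi
  unfold Pri.tD LD.pri da db
  simp only
  cases L.kb j with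
  | false => simp
  | true =>
    simp only [if_true, cond_true]
    rw [k1]
    have k2' : ((2 * nth 0 L.l j : ℕ) : ℝ) * (((i : ℤ) - 20 : ℤ) : ℝ) =
      ((2 * nth 0 L.l j * i : ℕ) : ℝ) - ((20 * (2 * nth 0 L.l j) : ℕ) : ℝ) := k2
    show _ + 2 * ((nth 0 L.l j : ℕ) : ℝ) * _ = ((lk (nth 0 L.p j) i + 2 * nth 0 L.l j * i : ℕ) : ℝ) -
      ((20 * (2 * nth 0 L.l j) : ℕ) : ℝ)
    have k3 : 2 * ((nth 0 L.l j : ℕ) : ℝ) * (((i : ℤ) - 20 : ℤ) : ℝ) =
      ((2 * nth 0 L.l j * i : ℕ) : ℝ) - ((20 * (2 * nth 0 L.l j) : ℕ) : ℝ) := by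
      rw [← k2']
      push_cast
      ring
    rw [k3]
    push_cast
    ring

theorem pn_V : PN (L.pri.tV j) (va L j) (vb L j) := by
  unfold Pri.tV
  exact PN.ite (L.kb j) (PN.pt (nth 0 L.q j)) (PN.neg (PN.pt (nth 0 L.p j)))

theorem pn_P : PN (L.pri.tP j) (pa L j) (pb L j) := by
  intro i hi
  have k1 := (PN.pt (nth 0 L.p j)) i hi
  have k2 := (PN.lin (nth 0 L.l j)) i hi
  unfold Pri.tP LD.pri pa pb
  simp only
  cases L.kb j with
  | false => simp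
  | true =>
    simp only [if_true, cond_true]
    rw [k1]
    have k2' : ((nth 0 L.l j : ℕ) : ℝ) * (((i : ℤ) - 20 : ℤ) : ℝ) =
      ((nth 0 L.l j * i : ℕ) : ℝ) - ((20 * nth 0 L.l j : ℕ) : ℝ) := k2
    show _ + -((nth 0 L.l j : ℕ) : ℝ) * _ = ((20 * nth 0 L.l j : ℕ) : ℝ) -
      ((lk (nth 0 L.p j) i + nth 0 L.l j * i : ℕ) : ℝ)
    rw [neg_mul, k2']
    push_cast
    ring

theorem pn_I : PN (L.pri.tI j) (ia L j) (ib L j) := by
  unfold Pri.tI
  exact PN.ite (L.kb j) (PN.lin (nth 0 L.l j)) PN.zero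

end

end Pool.Agent.Helper44.NE
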