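import Pool.Agent.Helper44.NE.MixGrid
import Pool.Agent.Helper44.NE.Tabs

/-!
# The leaves of `MixedII`

Codes of the kinds in `LD.k`: `0` not used, `1` kind A, `2` kind B.
-/

set_option autoImplicit false

namespace Pool.Agent.Helper44.NE

open Pool.Agent.Helper56.NE Pool.Agent.Helper95.TS Pool.Agent.Helper90.TS Pool.Agent.Helper62.NE
  Pool.Agent.Helper44.TS

/-- the relation `j` has the kind of the code -/
def KC (c : Cu) (k : ℕ) (i m r z : Fin 4) : Prop :=
  (k = 1 → Kd c false i m r z) ∧ (k = 2 → Kd c true i m r z) ∧ k < 3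

/-- the pattern of a list of codes -/
structure Mt (k : List ℕ) (c : Cu) : Prop where
  k0 : KC c (nth 0 k 0) 0 1 2 3
  k1 : KC c (nth 0 k 1) 0 1 3 2
  k2 : KC c (nth 0 k 2) 0 2 3 1
  k3 : KC c (nth 0 k 3) 0 3 2 1
  k4 : KC c (nth 0 k 4) 1 0 2 3
  k5 : KC c (nth 0 k 5) 1 0 3 2

theorem monotone_Pt {p : ℕ} (h : mono p = true) : Monotone (Pt p) := by
  have step : ∀ n : ℕ, ∀ f : ℕ → ℕ, Nat.rec (motive := fun _ => Bool) true
      (fun n ih => Nat.ble (f n) (f (Nat.succ n)) && ih) n = true →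
      ∀ i, i < n → f i ≤ f (i + 1) := by
    intro n f
    induction n with
    | zero => exact fun _ i hi => absurd hi (Nat.not_lt_zero i)
    | succ n ih =>
      intro h i hi
      have h' : (Nat.ble (f n) (f (n + 1)) && Nat.rec (motive := fun _ => Bool) true
        (fun n ih => Nat.ble (f n) (f (Nat.succ n)) && ih) n) = true := h
      rw [Bool.and_eq_true] at h'
      rcases Nat.lt_succ_iff_lt_or_eq.1 hi with k | k
      · exact ih h'.2 i k
      · rw [k]
        exact Nat.le_of_ble_eq_true h'.1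
  have s := step 60 (lk p) h
  have mon : ∀ i j : ℕ, i ≤ j → j ≤ 60 → lk p i ≤ lk p j := by
    intro i j hij
    induction j, hij using Nat.le_induction with
    | base => exact fun _ => le_rfl
    | succ j hj ih => exact fun hj' => (ih (by omega)).trans (s j (by omega))
  intro a b hab
  unfold Pt
  exact_mod_cast mon _ _ (by omega) (by omega)

/-- all tables are increasing and the codes are right -/
def LD.ok (L : LD) : Bool :=
  allN 6 (fun j => mono (nth 0 L.p j) && mono (nth 0 L.q j) &&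
    (bif Nat.beq (nth 0 L.k j) 0 then Nat.beq (nth 0 L.p j) 0 else true)) &&
  mono L.s2 && mono L.s3 && mono L.cp

theorem LD.ok_pri {L : LD} (h : L.ok = true) : L.pri.Ok := by
  unfold LD.ok at h
  simp only [Bool.and_eq_true] at h
  obtain ⟨⟨⟨h1, h2⟩, h3⟩, h4⟩ := h
  have e : ∀ j : Fin 6, mono (nth 0 L.p j) = true ∧ mono (nth 0 L.q j) = true := by
    intro j
    have k := allN_ok h1 j j.2
    simp only [Bool.and_eq_true] at k
    exact k.1
  exact ⟨fun j => monotone_Pt (e j).1, fun j => monotone_Pt (e j).2, fun j => Nat.cast_nonneg _,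
    monotone_Pt h2, monotone_Pt h3, monotone_Pt h4, Nat.cast_nonneg _, Nat.cast_nonneg _⟩

theorem Pt_zero (n : ℤ) : Pt 0 n = 0 := by
  unfold Pt lk
  have : Nat.land (Nat.shiftRight 0 (Nat.mul 24 (min 60 (n + 20).toNat))) 16777215 = 0 := by
    have e : Nat.shiftRight 0 (Nat.mul 24 (min 60 (n + 20).toNat)) = 0 := Nat.zero_shiftRight _
    rw [e]
    rfl
  rw [this]
  simp

theorem LD.ko {L : LD} (h : L.ok = true) {c : Cu} {i m r z : Fin 4} (j : Fin 6)
    (hk : KC c (nth 0 L.k j) i m r z) : KO L.pri c j i m r z := by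
  unfold LD.ok at h
  simp only [Bool.and_eq_true] at h
  obtain ⟨⟨⟨h1, -⟩, -⟩, -⟩ := h
  have k := allN_ok h1 j j.2
  simp only [Bool.and_eq_true] at k
  obtain ⟨k1, k2, k3⟩ := hk
  unfold KO LD.pri LD.kb
  simp only
  have c3 : nth 0 L.k j = 0 ∨ nth 0 L.k j = 1 ∨ nth 0 L.k j = 2 := by omega
  rcases c3 with e | e | e
  · right
    rw [e] at k ⊢
    have k2 := k.2
    simp only [Nat.beq_refl, cond_true] at k2
    have e2 := Nat.eq_of_beq_eq_true k2
    refine ⟨rfl, fun n => ?_⟩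
    rw [e2]
    exact Pt_zero n
  · left
    rw [e]
    exact k1 e
  · left
    rw [e]
    exact k2 e

theorem LD.pat {L : LD} (h : L.ok = true) {c : Cu} (m : Mt L.k c) : Pat L.pri c :=
  ⟨L.ko h 0 m.k0, L.ko h 1 m.k1, L.ko h 2 m.k2, L.ko h 3 m.k3, L.ko h 4 m.k4, L.ko h 5 m.k5⟩

/-- not of kind B -/
def nb (L : LD) (j : ℕ) : Bool := !L.kb j

theorem nb_false {L : LD} {j : ℕ} (h : nb L j = false) : nth 0 L.k j = 2 := by
  unfold nb LD.kb at h
  rw [Bool.not_eq_false'] at h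
  exact Nat.eq_of_beq_eq_true h

/-- the negative constants of a leaf -/
def LD.cn (L : LD) : ℕ :=
  Nat.add (Nat.add (Nat.add (ib L 0 0) (ib L 1 0)) (Nat.add (ib L 2 0) (ib L 3 0)))
    (Nat.add (Nat.add (ib L 4 0) (ib L 5 0)) (Nat.mul 764 L.g))

theorem LD.C_eq (L : LD) (b : Bool) : L.pri.C b = (if b then 34 * (L.n : ℝ) else 0) - L.cn := by
  have e : ∀ j : Fin 6, L.pri.tC j = -((ib L j 0 : ℕ) : ℝ) := by
    intro j
    unfold Pri.tC ib LD.pri
    simp only
    cases L.kb j with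
    | false => simp
    | true =>
      simp only [if_true, cond_true]
      show -20 * ((nth 0 L.l j : ℕ) : ℝ) = -((20 * nth 0 L.l j : ℕ) : ℝ)
      push_cast
      ring
  have n : L.pri.n = (L.n : ℝ) := rfl
  have g : L.pri.g = (L.g : ℝ) := rfl
  have c : ((LD.cn L : ℕ) : ℝ) = (ib L 0 0 : ℕ) + (ib L 1 0 : ℕ) + ((ib L 2 0 : ℕ) + (ib L 3 0 : ℕ)) +
      ((ib L 4 0 : ℕ) + (ib L 5 0 : ℕ) + 764 * (L.g : ℝ)) := by
    show ((ib L 0 0 + ib L 1 0 + (ib L 2 0 + ib L 3 0) + (ib L 4 0 + ib L 5 0 + 764 * L.g) : ℕ) : ℝ) = _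
    push_cast
    ring
  unfold Pri.C
  rw [n, g, c, e 0, e 1, e 2, e 3, e 4, e 5]
  simp only [Fin.isValue, Fin.coe_ofNat_eq_mod]
  ring

/-- the bound of the tall block -/
def TallR (T : TR) (M : ℝ) : Prop := ∀ c : Cu, OkU c →
  96000 * c.mf 1 + T.real (c.v 1 2) (c.v 1 3) (c.v 1 0) ≤ M + 80

variable {L : LD} {c : Cu}

theorem cg0 (h : OkU c) (m : Mt L.k c) {g : GC} (hg : NearC (cuC c 0 1 3 2) g) (hs : g.Sum) :
    CG (nb L 0 && nb L 1) 0 20 g := by
  cases h0 : nb L 0 with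
  | false => exact cg_kb h (by decide) (m.k0.2.1 (nb_false h0)) hg hs
  | true =>
    cases h1 : nb L 1 with
    | false => exact cg_kb h (by decide) (m.k1.2.1 (nb_false h1)) hg hs
    | true => exact cg_cell h (by decide) hg hs

theorem cg1 (h : OkU c) (m : Mt L.k c) {g : GC} (hg : NearC (cuC c 0 2 1 3) g) (hs : g.Sum) :
    CG (nb L 2) 0 20 g := by
  cases h0 : nb L 2 with
  | false => exact cg_kb h (by decide) (m.k2.2.1 (nb_false h0)) hg hs
  | true => exact cg_cell h (by decide) hg hs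

theorem cg2 (h : OkU c) (m : Mt L.k c) {g : GC} (hg : NearC (cuC c 0 3 2 1) g) (hs : g.Sum) :
    CG (nb L 3) 0 20 g := by
  cases h0 : nb L 3 with
  | false => exact cg_kb h (by decide) (m.k3.2.1 (nb_false h0)) hg hs
  | true => exact cg_cell h (by decide) hg hs

/-- **A leaf without main cell.** -/
theorem leaf0 (hm : L.ok = true) (h : OkU c) (h0 : c.mf 0 = 0) (m : Mt L.k c) {MC MF M1 M2 M3 : ℝ}
    (hC : ClsBd (nb L 0 && nb L 1) (nb L 2) (nb L 3) (L.pri.T1 false) L.pri.T2 L.pri.T3 MC)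
    (hF : OneBd false 13 20 L.pri.TF 0 MF) (h1 : TallR (L.pri.R1 false) M1)
    (h2 : RowBd L.pri.R2 M2) (h3 : RowBd L.pri.R3 M3)
    (hs : MC + MF + M1 + M2 + M3 + L.pri.C false ≤ 293620) : c.val ≤ 613 / 200 := by
  have k := Pri.sum_nonneg (LD.ok_pri hm) h (LD.pat hm m) false (fun e => absurd e (by simp))
  have b0 := mx_class h (show [(0 : Fin 4), 1, 2, 3].Nodup by decide) (L.pri.T1 false) L.pri.T2
    L.pri.T3 (fun o0 o1 o2 g0 g1 g2 n0 n1 n2 s0 s1 s2 t =>
      hC o0 o1 o2 g0 g1 g2 (cg0 h m n0 s0) (cg1 h m n1 s1) (cg2 h m n2 s2) t)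
  have bF := mx_far h L.pri.TF (M := MF) (fun g ng sg => by
    have := hF g (cg_far h ng sg)
    linarith)
  have b1 := h1 c h
  have b2 := mx_row h (Or.inl rfl) (show [(2 : Fin 4), 1, 3, 0].Nodup by decide) L.pri.R2 h2
  have b3 := mx_row h (Or.inr rfl) (show [(3 : Fin 4), 0, 2, 1].Nodup by decide) L.pri.R3 h3
  unfold Cu.val
  rw [h0, h.t2, h.t3]
  linarith

/-- **A leaf beside a high main cell.** -/
theorem leaf1 (hm : L.ok = true) (h : OkU c) (h0 : c.mf 0 ≠ 0) (m : Mt L.k c) {ab : Bool} {a b : ℤ}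
    {al be : ℝ} (hp : MajPair (al / 96000) (be / 4800))
    (hw : ∀ g, NearC (cuC c 0 1 3 2) g → g.Sum → CG ab a b g) {K0 K1 K2 MF M1 M2 M3 : ℝ}
    (c0 : OneBd (nb L 0 && nb L 1 && ab) a b (L.pri.T1 true) be K0)
    (c1 : OneBd (nb L 2) 0 20 L.pri.T2 be K1) (c2 : OneBd (nb L 3) 0 20 L.pri.T3 be K2)
    (hF : OneBd false 13 20 L.pri.TF 0 MF) (h1 : TallR (L.pri.R1 true) M1)
    (h2 : RowBd L.pri.R2 M2) (h3 : RowBd L.pri.R3 M3)
    (hs : al + K0 + K1 + K2 + MF + M1 + M2 + M3 + L.pri.C true ≤ 293620) : c.val ≤ 613 / 200 := by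
  have r5 : c.w 0 1 ≤ 7 + c.e 1 / 2 := h.r5.resolve_left h0
  have k := Pri.sum_nonneg (LD.ok_pri hm) h (LD.pat hm m) true (fun _ => r5)
  have cgw : ∀ g, NearC (cuC c 0 1 3 2) g → g.Sum → CG (nb L 0 && nb L 1 && ab) a b g := by
    intro g ng sg
    have q0 := cg0 h m ng sg
    have q1 := hw g ng sg
    rcases q1 with ⟨u1, u2⟩ | u
    · left
      refine ⟨?_, u2⟩
      rcases q0 with ⟨v1, v2⟩ | v
      · rw [v1, u1]
        rfl
      · exfalso
        have := v.1
        rw [u2] at this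
        norm_num at this
    · exact Or.inr u
  have hp' : MajPair (al / 96000) (be / 4800) := hp
  have eb : (4800 : ℝ) * (be / 4800) = be := by ring
  have b0 := mx_main h (show [(0 : Fin 4), 1, 2, 3].Nodup by decide) (L.pri.T1 true) L.pri.T2
    L.pri.T3 hp h0 (M0 := K0) (M1 := K1) (M2 := K2)
    (fun g ng sg => by rw [eb]; exact c0 g (cgw g ng sg))
    (fun g ng sg => by rw [eb]; exact c1 g (cg1 h m ng sg))
    (fun g ng sg => by rw [eb]; exact c2 g (cg2 h m ng sg))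
  have bF := mx_far h L.pri.TF (M := MF) (fun g ng sg => by
    have := hF g (cg_far h ng sg)
    linarith)
  have b1 := h1 c h
  have b2 := mx_row h (Or.inl rfl) (show [(2 : Fin 4), 1, 3, 0].Nodup by decide) L.pri.R2 h2
  have b3 := mx_row h (Or.inr rfl) (show [(3 : Fin 4), 0, 2, 1].Nodup by decide) L.pri.R3 h3
  unfold Cu.val
  rw [h.t2, h.t3]
  linarith

end Pool.Agent.Helper44.NE
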