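import Pool.Agent.Helper44.NE.MixLeaf

/-!
# The case tree of `MixedII`
-/

set_option autoImplicit false

namespace Pool.Agent.Helper44.NE

open Pool.Agent.Helper56.NE Pool.Agent.Helper95.TS Pool.Agent.Helper90.TS Pool.Agent.Helper62.NE
  Pool.Agent.Helper44.TS

/-- the code fits the kind -/
def fit (k : ℕ) (b : Bool) : Bool :=
  Nat.beq k 0 || (Nat.beq k 1 && !b) || (Nat.beq k 2 && b)

/-- the codes fit the kinds -/
def fits (k : List ℕ) (b0 b1 b2 b3 b4 b5 : Bool) : Bool :=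
  fit (nth 0 k 0) b0 && fit (nth 0 k 1) b1 && fit (nth 0 k 2) b2 && fit (nth 0 k 3) b3 &&
    fit (nth 0 k 4) b4 && fit (nth 0 k 5) b5

theorem kc_of {c : Cu} {k : ℕ} {b : Bool} {i m r z : Fin 4} (h : fit k b = true)
    (hk : Kd c b i m r z) : KC c k i m r z := by
  unfold fit at h
  simp only [Bool.or_eq_true, Bool.and_eq_true, Bool.not_eq_true'] at h
  rcases h with (h | ⟨h, hb⟩) | ⟨h, hb⟩
  · have e := Nat.eq_of_beq_eq_true h
    subst e
    exact ⟨fun e => absurd e (by norm_num), fun e => absurd e (by norm_num), by norm_num⟩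
  · have e := Nat.eq_of_beq_eq_true h
    subst e hb
    exact ⟨fun _ => hk, fun e => absurd e (by norm_num), by norm_num⟩
  · have e := Nat.eq_of_beq_eq_true h
    subst e hb
    exact ⟨fun e => absurd e (by norm_num), fun _ => hk, by norm_num⟩

/-- the kinds which occur -/
def valid (b0 b1 b2 b3 b4 b5 : Bool) : Bool :=
  !(b0 && b1) && !(b4 && b5) && !(b1 && b2) && !(b0 && b3)

/-- **Every configuration fits some code of the list.** -/
theorem exists_fit {c : Cu} (h : OkU c) (ks : List (List ℕ))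
    (hks : ∀ b0 b1 b2 b3 b4 b5 : Bool, valid b0 b1 b2 b3 b4 b5 = true →
      (ks.any fun k => fits k b0 b1 b2 b3 b4 b5) = true) : ∃ k ∈ ks, Mt k c := by
  have kd : ∀ i m r z, (i = 0 ∨ i = 1) → (r = 2 ∨ r = 3) → [i, m, r, z].Nodup →
      ∃ b, Kd c b i m r z ∧ (b = true → c.KB i m r z) := by
    intro i m r z hi hr hn
    rcases h.kd i m r z hi hr hn with k | k
    · exact ⟨false, k, fun e => absurd e (by simp)⟩
    · exact ⟨true, k, fun _ => k⟩
  obtain ⟨b0, k0, q0⟩ := kd 0 1 2 3 (Or.inl rfl) (Or.inl rfl) (by decide)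
  obtain ⟨b1, k1, q1⟩ := kd 0 1 3 2 (Or.inl rfl) (Or.inr rfl) (by decide)
  obtain ⟨b2, k2, q2⟩ := kd 0 2 3 1 (Or.inl rfl) (Or.inr rfl) (by decide)
  obtain ⟨b3, k3, q3⟩ := kd 0 3 2 1 (Or.inl rfl) (Or.inl rfl) (by decide)
  obtain ⟨b4, k4, q4⟩ := kd 1 0 2 3 (Or.inr rfl) (Or.inl rfl) (by decide)
  obtain ⟨b5, k5, q5⟩ := kd 1 0 3 2 (Or.inr rfl) (Or.inr rfl) (by decide)
  have hv : valid b0 b1 b2 b3 b4 b5 = true := by
    unfold valid
    simp only [Bool.and_eq_true, Bool.not_eq_true', Bool.and_eq_false_iff]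
    refine ⟨⟨⟨?_, ?_⟩, ?_⟩, ?_⟩
    · by_contra hc
      simp only [not_or, Bool.not_eq_false] at hc
      exact h.f1 0 1 2 3 (Or.inl rfl) (Or.inl rfl) (Or.inr rfl) (by decide) (q0 hc.1) (q1 hc.2)
    · by_contra hc
      simp only [not_or, Bool.not_eq_false] at hc
      exact h.f1 1 0 2 3 (Or.inr rfl) (Or.inl rfl) (Or.inr rfl) (by decide) (q4 hc.1) (q5 hc.2)
    · by_contra hc
      simp only [not_or, Bool.not_eq_false] at hc
      exact h.f2 1 3 2 (Or.inr rfl) (by decide) (q1 hc.1) (q2 hc.2)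
    · by_contra hc
      simp only [not_or, Bool.not_eq_false] at hc
      exact h.f2 1 2 3 (Or.inl rfl) (by decide) (q0 hc.1) (q3 hc.2)
  obtain ⟨k, hk, hf⟩ := List.any_eq_true.1 (hks b0 b1 b2 b3 b4 b5 hv)
  unfold fits at hf
  simp only [Bool.and_eq_true] at hf
  obtain ⟨⟨⟨⟨⟨f0, f1⟩, f2⟩, f3⟩, f4⟩, f5⟩ := hf
  exact ⟨k, hk, kc_of f0 k0, kc_of f1 k1, kc_of f2 k2, kc_of f3 k3, kc_of f4 k4, kc_of f5 k5⟩

/-- **`MixedII` from the leaves.** `ks, ls`: the codes of the leaves without and with main cell. -/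
theorem mixedII_of_leaves (ks ls : List (List ℕ))
    (hks : ∀ b0 b1 b2 b3 b4 b5 : Bool, valid b0 b1 b2 b3 b4 b5 = true →
      (ks.any fun k => fits k b0 b1 b2 b3 b4 b5) = true)
    (hls : ∀ b0 b1 b2 b3 b4 b5 : Bool, valid b0 b1 b2 b3 b4 b5 = true →
      (ls.any fun k => fits k b0 b1 b2 b3 b4 b5) = true)
    (h0 : ∀ k ∈ ks, ∀ c : Cu, OkU c → c.mf 0 = 0 → Mt k c → c.val ≤ 613 / 200)
    (h1 : ∀ k ∈ ls, ∀ c : Cu, OkU c → c.mf 0 ≠ 0 → Mt k c → c.val ≤ 613 / 200) : MixedII := by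
  refine mixedII_of_cu fun c h => ?_
  by_cases hc : c.mf 0 = 0
  · obtain ⟨k, hk, m⟩ := exists_fit h ks hks
    exact h0 k hk c h hc m
  · obtain ⟨k, hk, m⟩ := exists_fit h ls hls
    exact h1 k hk c h hc m

end Pool.Agent.Helper44.NE
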