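import Pool.Agent.Helper44.NE.MixTree
import Pool.Agent.Helper44.NE.MixA
import Pool.Agent.Helper44.NE.MixB
import Pool.Agent.Helper44.NE.MixC
import Pool.Agent.Helper44.NE.MixD
import Pool.Agent.Helper44.NE.MixE

/-!
# `MixedII`
-/

set_option autoImplicit false

namespace Pool.Agent.Helper44.NE

open Pool.Agent.Helper90.TS Pool.Agent.Helper56.NE Pool.Agent.Helper44.TS

/-- the codes of the leaves without main cell -/
def ks0 : List (List ℕ) := [[1, 1, 1, 1, 1, 1],
  [1, 1, 2, 1, 1, 1],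
  [2, 1, 1, 1, 1, 1],
  [2, 1, 2, 1, 1, 1],
  [1, 1, 1, 2, 1, 1],
  [1, 1, 2, 2, 1, 1],
  [1, 2, 1, 1, 1, 1],
  [1, 2, 1, 2, 1, 1],
  [1, 1, 0, 1, 1, 2],
  [1, 1, 0, 2, 1, 2],
  [1, 2, 1, 1, 1, 2],
  [1, 2, 1, 2, 1, 2],
  [2, 1, 0, 1, 1, 2],
  [1, 1, 1, 0, 2, 1],
  [1, 1, 2, 0, 2, 1],
  [2, 1, 1, 1, 2, 1],
  [2, 1, 2, 1, 2, 1],
  [1, 2, 1, 0, 2, 1]]

/-- the codes of the leaves beside a high main cell -/
def ks1 : List (List ℕ) := [[1, 1, 1, 1, 1, 1],
  [1, 1, 1, 2, 1, 1],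
  [1, 1, 2, 0, 1, 1],
  [1, 2, 1, 0, 1, 1],
  [2, 1, 0, 1, 1, 1],
  [0, 1, 0, 0, 2, 1],
  [1, 2, 1, 0, 2, 1],
  [0, 1, 0, 0, 1, 2],
  [1, 2, 1, 0, 1, 2]]

/-- **`MixedII`**: a tall class whose far cell is in the column of the class of kind `R2`. -/
theorem mixedII : MixedII := by
  refine mixedII_of_leaves ks0 ks1 (by decide) (by decide) ?_ ?_
  · intro k hk c h h0 m
    simp only [ks0, List.mem_cons, List.not_mem_nil, or_false] at hk
    rcases hk with rfl | rfl | rfl | rfl | rfl | rfl | rfl | rfl | rfl | rfl | rfl | rfl | rfl | rfl | rfl | rfl | rfl | rfl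
    · exact l0 h h0 m
    · exact l1 h h0 m
    · exact l2 h h0 m
    · exact l3 h h0 m
    · exact l4 h h0 m
    · exact l5 h h0 m
    · exact l6 h h0 m
    · exact l7 h h0 m
    · exact l8 h h0 m
    · exact l9 h h0 m
    · exact l10 h h0 m
    · exact l11 h h0 m
    · exact l12 h h0 m
    · exact l13 h h0 m
    · exact l14 h h0 m
    · exact l15 h h0 m
    · exact l16 h h0 m
    · exact l17 h h0 m
  · intro k hk c h h0 m
    simp only [ks1, List.mem_cons, List.not_mem_nil, or_false] at hk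
    rcases hk with rfl | rfl | rfl | rfl | rfl | rfl | rfl | rfl | rfl
    · rcases le_total (c.w 0 1) 7 with w | w
      · exact l18 h h0 w m
      · rcases le_total (c.w 0 1) 9 with u | u
        · exact l19 h h0 w u m
        · refine l20 h h0 u ?_ m
          rcases h.cell 1 2 3 (by decide) with q | q
          · exact q.w1
          · rw [q.w]
            norm_num
    · exact l21 h h0 m
    · exact l22 h h0 m
    · exact l23 h h0 m
    · exact l24 h h0 m
    · exact l25 h h0 m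
    · exact l26 h h0 m
    · exact l27 h h0 m
    · exact l28 h h0 m

end Pool.Agent.Helper44.NE
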