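import Pool.Agent.Helper44.NE.Interp
import Pool.Agent.Helper44.NE.MixBlk

/-!
# `MixedII`: the prices of a leaf, scale `96000`

The six relations `j` of a far cell `(i; m)` and a row `r` (`z` the fourth index), in the order
`(0;1)|2, (0;1)|3, (0;2)|3, (0;3)|2, (1;0)|2, (1;0)|3`. Kind A (`k j = false`): `v r m ≤ 20 - X`, price `p j`.
Kind B: `v r m + v r z ≤ D` (price `p j`), `20 - X ≤ v r m` (price `q j`),
`20 + v r m + v r z - v r i ≤ 2 D` (price `l j`). Further relations: `v 1 2 ≤ 20 - X 0 2 1` (`s2`),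
`v 1 3 ≤ 20 - X 0 3 1` (`s3`), `w 1 0 ≤ -v 1 0` (`cp`), `2 w 0 1 ≤ 34 - S1` (`n`), `764 ≤ 25 (S2 + S3)` (`g`).
-/

set_option autoImplicit false

namespace Pool.Agent.Helper44.NE

open Pool.Agent.Helper56.NE Pool.Agent.Helper95.TS Pool.Agent.Helper90.TS Pool.Agent.Helper84.TS
  Pool.Agent.Helper44.TS

/-- the prices -/
structure Pri where
  k : Fin 6 → Bool
  p : Fin 6 → ℤ → ℝ
  q : Fin 6 → ℤ → ℝ
  l : Fin 6 → ℝ
  s2 : ℤ → ℝ
  s3 : ℤ → ℝ
  cp : ℤ → ℝ
  n : ℝ
  g : ℝ

/-- the prices are increasing -/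
structure Pri.Ok (P : Pri) : Prop where
  p : ∀ j, Monotone (P.p j)
  q : ∀ j, Monotone (P.q j)
  l : ∀ j, 0 ≤ P.l j
  s2 : Monotone P.s2
  s3 : Monotone P.s3
  cp : Monotone P.cp
  n : 0 ≤ P.n
  g : 0 ≤ P.g

/-- the table of the component `X` capping the row -/
def Pri.tX (P : Pri) (j : Fin 6) (n : ℤ) : ℝ := if P.k j then -P.q j (20 - n) else P.p j (20 - n)

/-- the table of `D` -/
def Pri.tD (P : Pri) (j : Fin 6) (n : ℤ) : ℝ := if P.k j then P.p j n + 2 * P.l j * n else 0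

/-- the table of `v r m` -/
def Pri.tV (P : Pri) (j : Fin 6) (n : ℤ) : ℝ := if P.k j then P.q j n else -P.p j n

/-- the table of `v r m + v r z` -/
def Pri.tP (P : Pri) (j : Fin 6) (n : ℤ) : ℝ := if P.k j then -P.p j n + -P.l j * n else 0

/-- the table of `v r i` -/
def Pri.tI (P : Pri) (j : Fin 6) (n : ℤ) : ℝ := if P.k j then P.l j * n else 0

/-- the constant -/
def Pri.tC (P : Pri) (j : Fin 6) : ℝ := if P.k j then -20 * P.l j else 0

/-- the kind of the relation -/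
def Kd (c : Cu) (b : Bool) (i m r z : Fin 4) : Prop :=
  if b then c.KB i m r z else c.v r m ≤ 20 - c.X i m r

theorem Pri.Ok.price {P : Pri} (h : P.Ok) {c : Cu} {j : Fin 6} {i m r z : Fin 4}
    (k : Kd c (P.k j) i m r z ∨ (P.k j = false ∧ ∀ n, P.p j n = 0)) (he : 0 ≤ c.e r) (hv : c.v r i + c.v r m + c.v r z = 20 - c.e r) :
    0 ≤ interp (P.tX j) (c.X i m r) + interp (P.tD j) (c.D i m) + interp (P.tV j) (c.v r m) +
      interp (P.tP j) (c.v r m + c.v r z) + interp (P.tI j) (c.v r i) + P.tC j := by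
  unfold Kd at k
  cases hk : P.k j with
  | false =>
    rw [hk] at k
    simp only [Bool.false_eq_true, if_false, true_and] at k
    have e1 : P.tX j = fun n => P.p j (20 - n) := by
      funext n
      simp [Pri.tX, hk]
    have e2 : P.tD j = fun _ => 0 := by
      funext n
      simp [Pri.tD, hk]
    have e3 : P.tV j = fun n => -P.p j n := by
      funext n
      simp [Pri.tV, hk]
    have e4 : P.tP j = fun _ => 0 := by
      funext n
      simp [Pri.tP, hk]
    have e5 : P.tI j = fun _ => 0 := by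
      funext n
      simp [Pri.tI, hk]
    have e6 : P.tC j = 0 := by simp [Pri.tC, hk]
    have rv := interp_rev (P.p j) 20 (c.X i m r)
    push_cast at rv
    rw [e1, e2, e3, e4, e5, e6, ← rv, interp_zero, interp_neg, interp_zero, interp_zero]
    rcases k with k | k
    · have := interp_mono (h.p j) k
      linarith
    · have e : P.p j = fun _ => 0 := funext k
      rw [e, interp_zero, interp_zero]
      norm_num
  | true =>
    rw [hk] at k
    simp only [if_true, reduceCtorEq, false_and, or_false] at k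
    have e1 : P.tX j = fun n => (fun n => -P.q j n) (20 - n) := by
      funext n
      simp [Pri.tX, hk]
    have e2 : P.tD j = fun n => P.p j n + (fun n : ℤ => 2 * P.l j * n) n := by
      funext n
      simp [Pri.tD, hk]
    have e3 : P.tV j = P.q j := by
      funext n
      simp [Pri.tV, hk]
    have e4 : P.tP j = fun n => (fun n => -P.p j n) n + (fun n : ℤ => -P.l j * n) n := by
      funext n
      simp [Pri.tP, hk]
    have e5 : P.tI j = fun n : ℤ => P.l j * n := by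
      funext n
      simp [Pri.tI, hk]
    have e6 : P.tC j = -20 * P.l j := by simp [Pri.tC, hk]
    have rv := interp_rev (fun n => -P.q j n) 20 (c.X i m r)
    push_cast at rv
    rw [e1, e2, e3, e4, e5, e6, ← rv, interp_add, interp_lin, interp_neg, interp_add, interp_neg,
      interp_lin, interp_lin]
    have lo := k.lo
    have a1 := interp_mono (h.q j) k.vi.le
    have a2 := interp_mono (h.p j) (show c.v r m + c.v r z ≤ c.D i m by linarith)
    nlinarith [mul_nonneg (h.l j) (sub_nonneg.2 lo)]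

/-- the tables of the cells -/
def Pri.T1 (P : Pri) (b : Bool) : Tab where
  w n := if b then -2 * P.n * n else 0
  X := P.tX 1
  Y := P.tX 0
  D n := P.tD 0 n + P.tD 1 n

def Pri.T2 (P : Pri) : Tab where
  w _ := 0
  X n := P.s2 (20 - n)
  Y := P.tX 2
  D := P.tD 2

def Pri.T3 (P : Pri) : Tab where
  w _ := 0
  X := P.tX 3
  Y n := P.s3 (20 - n)
  D := P.tD 3

def Pri.TF (P : Pri) : Tab where
  w n := -P.cp n
  X := P.tX 4
  Y := P.tX 5
  D n := P.tD 4 n + P.tD 5 n

/-- the six tables of a row: `v1, v2, v3, v1 + v2, v2 + v3, v1 + v2 + v3` -/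
structure TR where
  a : ℤ → ℝ
  b : ℤ → ℝ
  c : ℤ → ℝ
  ab : ℤ → ℝ
  bc : ℤ → ℝ
  S : ℤ → ℝ

/-- the real price of a row -/
noncomputable def TR.real (T : TR) (v1 v2 v3 : ℝ) : ℝ :=
  interp T.a v1 + interp T.b v2 + interp T.c v3 + interp T.ab (v1 + v2) + interp T.bc (v2 + v3) +
    interp T.S (v1 + v2 + v3)

/-- row `2`: `v 2 1, v 2 3, v 2 0` -/
def Pri.R2 (P : Pri) : TR where
  a n := P.tV 0 n + P.tI 4 n
  b := P.tV 3
  c n := P.tV 4 n + P.tI 0 n + P.tI 3 n
  ab n := P.tP 0 n + P.tP 3 n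
  bc := P.tP 4
  S n := 25 * P.g * n

/-- row `3`: `v 3 0, v 3 2, v 3 1` -/
def Pri.R3 (P : Pri) : TR where
  a n := P.tV 5 n + P.tI 1 n + P.tI 2 n
  b := P.tV 2
  c n := P.tV 1 n + P.tI 5 n
  ab := P.tP 5
  bc n := P.tP 1 n + P.tP 2 n
  S n := 25 * P.g * n

/-- the tall row: `v 1 2, v 1 3, v 1 0` -/
def Pri.R1 (P : Pri) (b : Bool) : TR where
  a n := -P.s2 n
  b n := -P.s3 n
  c n := P.cp (-n)
  ab _ := 0
  bc _ := 0
  S n := if b then -P.n * n else 0

/-- the constants -/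
def Pri.C (P : Pri) (b : Bool) : ℝ :=
  P.tC 0 + P.tC 1 + P.tC 2 + P.tC 3 + P.tC 4 + P.tC 5 - 764 * P.g + if b then 34 * P.n else 0

/-- the kind of the relation `j`, unless the relation is not used -/
def KO (P : Pri) (c : Cu) (j : Fin 6) (i m r z : Fin 4) : Prop :=
  Kd c (P.k j) i m r z ∨ (P.k j = false ∧ ∀ n, P.p j n = 0)

/-- the pattern of the kinds -/
structure Pat (P : Pri) (c : Cu) : Prop where
  k0 : KO P c 0 0 1 2 3
  k1 : KO P c 1 0 1 3 2
  k2 : KO P c 2 0 2 3 1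
  k3 : KO P c 3 0 3 2 1
  k4 : KO P c 4 1 0 2 3
  k5 : KO P c 5 1 0 3 2

/-- **The prices of a leaf are nonnegative.** `b`: beside a high main cell. -/
theorem Pri.sum_nonneg {P : Pri} (h : P.Ok) {c : Cu} (hc : OkU c) (hp : Pat P c) (b : Bool)
    (hb : b = true → c.w 0 1 ≤ 7 + c.e 1 / 2) :
    0 ≤ (P.T1 b).real (cuC c 0 1 3 2) + P.T2.real (cuC c 0 2 1 3) + P.T3.real (cuC c 0 3 2 1) +
      P.TF.real (cuC c 1 0 2 3) + (P.R1 b).real (c.v 1 2) (c.v 1 3) (c.v 1 0) +
      P.R2.real (c.v 2 1) (c.v 2 3) (c.v 2 0) + P.R3.real (c.v 3 0) (c.v 3 2) (c.v 3 1) + P.C b := by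
  have e2 := hc.e0 2 (Or.inl rfl)
  have e3 := hc.e0 3 (Or.inr rfl)
  have s2 := hc.vs 2 0 1 3 (Or.inl rfl) (by decide)
  have s3 := hc.vs 3 0 1 2 (Or.inr rfl) (by decide)
  have es := hc.es
  have u1 := hc.tu
  have q0 := h.price hp.k0 e2 (by linarith)
  have q1 := h.price hp.k1 e3 (by linarith)
  have q2 := h.price hp.k2 e3 (by linarith)
  have q3 := h.price hp.k3 e2 (by linarith)
  have q4 := h.price hp.k4 e2 (by linarith)
  have q5 := h.price hp.k5 e3 (by linarith)
  have m2 := interp_mono h.s2 hc.tr.1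
  have m3 := interp_mono h.s3 hc.tr.2
  have mc := interp_mono h.cp hc.tw.2.1
  have r2 := interp_rev P.s2 20 (c.X 0 2 1)
  have r3 := interp_rev P.s3 20 (c.X 0 3 1)
  have rc := interp_rev P.cp 0 (c.v 1 0)
  push_cast at r2 r3 rc
  rw [r2] at m2
  rw [r3] at m3
  simp only [zero_sub] at rc
  rw [rc] at mc
  have hg : 0 ≤ P.g * (25 * ((c.v 2 1 + c.v 2 3 + c.v 2 0) + (c.v 3 0 + c.v 3 2 + c.v 3 1)) - 764) :=
    mul_nonneg h.g (by linarith)
  have ew : ∀ j, interp (fun n : ℤ => P.tD j n) = interp (P.tD j) := fun _ => rfl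
  have x1 : (P.T1 b).real (cuC c 0 1 3 2) = (if b then -2 * P.n * c.w 0 1 else 0) +
      interp (P.tX 1) (c.X 0 1 3) + interp (P.tX 0) (c.X 0 1 2) + interp (P.tD 0) (c.D 0 1) +
      interp (P.tD 1) (c.D 0 1) := by
    unfold Tab.real Pri.T1 cuC
    cases b with
    | false => simp only [Bool.false_eq_true, if_false, interp_zero, interp_add]; ring
    | true => simp only [if_true, interp_lin, interp_add]; ring
  have x2 : P.T2.real (cuC c 0 2 1 3) = interp (fun n => P.s2 (20 - n)) (c.X 0 2 1) +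
      interp (P.tX 2) (c.X 0 2 3) + interp (P.tD 2) (c.D 0 2) := by
    unfold Tab.real Pri.T2 cuC
    simp only [interp_zero]
    ring
  have x3 : P.T3.real (cuC c 0 3 2 1) = interp (P.tX 3) (c.X 0 3 2) +
      interp (fun n => P.s3 (20 - n)) (c.X 0 3 1) + interp (P.tD 3) (c.D 0 3) := by
    unfold Tab.real Pri.T3 cuC
    simp only [interp_zero]
    ring
  have x4 : P.TF.real (cuC c 1 0 2 3) = -interp P.cp (c.w 1 0) + interp (P.tX 4) (c.X 1 0 2) +
      interp (P.tX 5) (c.X 1 0 3) + interp (P.tD 4) (c.D 1 0) + interp (P.tD 5) (c.D 1 0) := by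
    unfold Tab.real Pri.TF cuC
    simp only [interp_neg, interp_add]
    ring
  have y1 : (P.R1 b).real (c.v 1 2) (c.v 1 3) (c.v 1 0) = -interp P.s2 (c.v 1 2) -
      interp P.s3 (c.v 1 3) + interp (fun n => P.cp (-n)) (c.v 1 0) +
      (if b then -P.n * (20 - c.e 1) else 0) := by
    have e : c.v 1 2 + c.v 1 3 + c.v 1 0 = 20 - c.e 1 := by linarith
    unfold TR.real Pri.R1
    rw [e]
    cases b with
    | false => simp only [Bool.false_eq_true, if_false, interp_zero, interp_neg]; ring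
    | true => simp only [if_true, interp_lin, interp_neg, interp_zero]; ring
  have y2 : P.R2.real (c.v 2 1) (c.v 2 3) (c.v 2 0) = interp (P.tV 0) (c.v 2 1) +
      interp (P.tI 4) (c.v 2 1) + interp (P.tV 3) (c.v 2 3) + interp (P.tV 4) (c.v 2 0) +
      interp (P.tI 0) (c.v 2 0) + interp (P.tI 3) (c.v 2 0) + interp (P.tP 0) (c.v 2 1 + c.v 2 3) +
      interp (P.tP 3) (c.v 2 3 + c.v 2 1) + interp (P.tP 4) (c.v 2 0 + c.v 2 3) +
      25 * P.g * (c.v 2 1 + c.v 2 3 + c.v 2 0) := by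
    unfold TR.real Pri.R2
    simp only [interp_add, interp_lin]
    rw [add_comm (c.v 2 3) (c.v 2 1), add_comm (c.v 2 3) (c.v 2 0)]
    ring
  have y3 : P.R3.real (c.v 3 0) (c.v 3 2) (c.v 3 1) = interp (P.tV 5) (c.v 3 0) +
      interp (P.tI 1) (c.v 3 0) + interp (P.tI 2) (c.v 3 0) + interp (P.tV 2) (c.v 3 2) +
      interp (P.tV 1) (c.v 3 1) + interp (P.tI 5) (c.v 3 1) + interp (P.tP 5) (c.v 3 0 + c.v 3 2) +
      interp (P.tP 1) (c.v 3 1 + c.v 3 2) + interp (P.tP 2) (c.v 3 2 + c.v 3 1) +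
      25 * P.g * (c.v 3 0 + c.v 3 2 + c.v 3 1) := by
    unfold TR.real Pri.R3
    simp only [interp_add, interp_lin]
    rw [add_comm (c.v 3 1) (c.v 3 2)]
    ring
  rw [x1, x2, x3, x4, y1, y2, y3]
  unfold Pri.C
  cases b with
  | false =>
    simp only [Bool.false_eq_true, if_false]
    linarith
  | true =>
    simp only [if_true]
    have hn := mul_nonneg h.n (show 0 ≤ 14 + c.e 1 - 2 * c.w 0 1 by linarith [hb rfl])
    linarith

end Pool.Agent.Helper44.NE
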